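import Mathlib

/-!
# The Pool model: definitions
-/

set_option autoImplicit false

open MeasureTheory ProbabilityTheory Set
open scoped ENNReal NNReal

namespace Pool.Agent.Helper40.PoolM

/-- The plane. -/
abbrev Plane := EuclideanSpace ℝ (Fin 2)

/-- `B(r)`: the closed disc of radius `r ∈ [0, ∞]` centred at the origin. -/
def disc (r : ℝ≥0∞) : Set Plane := {x | ENNReal.ofReal ‖x‖ ≤ r}

/-- The number (possibly infinite) of labels `i ∈ P` whose position `pos i` lies in `S`. -/
noncomputable def count {ι : Type*} (P : Set ι) (pos : ι → Plane) (S : Set Plane) : ℝ≥0∞ :=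
  (({i | i ∈ P ∧ pos i ∈ S}.encard : ℕ∞) : ℝ≥0∞)

/-- The radius `√(r² + m/π)` obtained from a disc of radius `r` by adding the area `m`. -/
noncomputable def addArea (r m : ℝ≥0∞) : ℝ≥0∞ :=
  (r ^ 2 + m / ENNReal.ofReal Real.pi) ^ (1 / 2 : ℝ)

/-- The cascade, as the sequence of pairs `(B(r_{j-1}), r_j)`, `j = 0, 1, 2, …`. Here `P` is the
set of active particles, `pos` their positions, `S` stands for `B(r_{-1})` (the empty set at
time `0`) and `r` for `r_0`; the recursion is `r_{j+1} = √(r_j² + ξ_{j+1}/π)` with
`ξ_{j+1}` the number of active particles in `B(r_j) \ B(r_{j-1})`. -/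
noncomputable def cascadeSeq {ι : Type*} (P : Set ι) (pos : ι → Plane) (S : Set Plane)
    (r : ℝ≥0∞) : ℕ → Set Plane × ℝ≥0∞
  | 0 => (S, r)
  | j + 1 =>
    (disc (cascadeSeq P pos S r j).2,
      addArea (cascadeSeq P pos S r j).2
        (count P pos (disc (cascadeSeq P pos S r j).2 \ (cascadeSeq P pos S r j).1)))

/-- `xi j` is the number `ξ_{j+1}` of active particles in `B(r_j) \ B(r_{j-1})`. -/
noncomputable def xi {ι : Type*} (P : Set ι) (pos : ι → Plane) (S : Set Plane)
    (r : ℝ≥0∞) (j : ℕ) : ℝ≥0∞ :=
  count P pos (disc (cascadeSeq P pos S r j).2 \ (cascadeSeq P pos S r j).1)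

open Classical in
/-- The radius `r_N` at which the cascade stops, `N = inf {j : ξ_j = 0}`, and `∞` if it never
stops. -/
noncomputable def cascade {ι : Type*} (P : Set ι) (pos : ι → Plane) (S : Set Plane)
    (r : ℝ≥0∞) : ℝ≥0∞ :=
  if h : ∃ j, xi P pos S r j = 0 then (cascadeSeq P pos S r (Nat.find h + 1)).2 else ∞

/-- State of the model after the `k`-th absorption time: the time `τ̂_k` (`∞` if there is no
such time), the radius of the disc at that time and the set of particles absorbed so far. -/
structure State (ι : Type*) where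
  /-- the time -/
  time : ℝ≥0∞
  /-- the radius of the disc -/
  radius : ℝ≥0∞
  /-- the inactive particles -/
  absorbed : Set ι

/-- The state at time `0`: the cascade started from `r_0 = 1/√π`, all particles being active. -/
noncomputable def initState {ι : Type*} (pos : ι → ℝ≥0 → Plane) : State ι where
  time := 0
  radius := cascade univ (fun i => pos i 0) ∅ (addArea 0 1)
  absorbed := {i | pos i 0 ∈ disc (cascade univ (fun i => pos i 0) ∅ (addArea 0 1))}

/-- The next absorption time: the first time after the present one at which an active particle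
lies in the disc. -/
noncomputable def nextTime {ι : Type*} (pos : ι → ℝ≥0 → Plane) (s : State ι) : ℝ≥0∞ :=
  sInf {t : ℝ≥0∞ | s.time < t ∧ t ≠ ∞ ∧ ∃ i, i ∉ s.absorbed ∧ pos i t.toNNReal ∈ disc s.radius}

/-- The radius after the next absorption time: the cascade of the active particles at that time,
started from `r_{-1} = ` present radius and `r_0 = √(r_{-1}² + 1/π)`. -/
noncomputable def nextRadius {ι : Type*} (pos : ι → ℝ≥0 → Plane) (s : State ι) : ℝ≥0∞ :=
  cascade s.absorbedᶜ (fun i => pos i (nextTime pos s).toNNReal) (disc s.radius)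
    (addArea s.radius 1)

/-- The next state. -/
noncomputable def nextState {ι : Type*} (pos : ι → ℝ≥0 → Plane) (s : State ι) : State ι where
  time := nextTime pos s
  radius := nextRadius pos s
  absorbed := s.absorbed ∪ {i | pos i (nextTime pos s).toNNReal ∈ disc (nextRadius pos s)}

/-- The state after the `k`-th absorption time. -/
noncomputable def poolState {ι : Type*} (pos : ι → ℝ≥0 → Plane) (k : ℕ) : State ι :=
  (nextState pos)^[k] (initState pos)

open Classical in
/-- The radius process `𝓔_t` of the Pool model driven by particles that move freely along the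
paths `pos i`: it is the radius of the `k`-th state for `τ̂_k ≤ t < τ̂_{k+1}`, and `∞` after the
limit of the absorption times. -/
noncomputable def poolRadius {ι : Type*} (pos : ι → ℝ≥0 → Plane) (t : ℝ≥0) : ℝ≥0∞ :=
  if h : ∃ k, (poolState pos k).time ≤ t ∧ (t : ℝ≥0∞) < (poolState pos (k + 1)).time then
    (poolState pos (Nat.find h)).radius
  else ∞

/-- The number of jumps up to time `t` of the clock with waiting times `T 0, T 1, …`. -/
noncomputable def clock (T : ℕ → ℝ) (t : ℝ≥0) : ℕ :=
  {n : ℕ | ∑ k ∈ Finset.range (n + 1), T k ≤ t}.ncard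

/-- The continuous time walk `∑_{k < N(t)} ν_k` with waiting times `T` and steps `ν`. -/
noncomputable def walk (T : ℕ → ℝ) (ν : ℕ → Plane) (t : ℝ≥0) : Plane :=
  ∑ k ∈ Finset.range (clock T t), ν k

/-- The random points `Y 0, Y 1, …` form a Poisson point process with intensity measure `Λ`: the
numbers of points in finitely many pairwise disjoint sets of finite `Λ`-measure are independent
Poisson variables with parameters the `Λ`-measures of the sets. -/
def IsPoissonProcess {Ω S : Type*} [MeasurableSpace Ω] [MeasurableSpace S] (P : Measure Ω)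
    (Y : ℕ → Ω → S) (Λ : Measure S) : Prop :=
  ∀ (m : ℕ) (A : Fin m → Set S), (∀ c, MeasurableSet (A c)) →
    (∀ c d, c ≠ d → Disjoint (A c) (A d)) → (∀ c, Λ (A c) ≠ ∞) → ∀ n : Fin m → ℕ,
      P {ω | ∀ c, {i | Y i ω ∈ A c}.encard = n c} =
        ∏ c, ENNReal.ofReal (Real.exp (-(Λ (A c)).toReal) * (Λ (A c)).toReal ^ (n c) /
          (n c).factorial)

/-- The probabilistic input of the Pool model with parameter `lam`: the initial positions `X i`
form a Poisson point process of intensity `lam` on the plane; particle `i` has waiting times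
`T i n`, exponential of rate one (so that its clock is a rate one Poisson process), and steps
`ν i n`, standard Gaussian vectors of the plane; all these variables are independent. -/
structure IsEnvironment {Ω : Type*} [MeasurableSpace Ω] (P : Measure Ω) (lam : ℝ≥0)
    (X : ℕ → Ω → Plane) (T : ℕ → ℕ → Ω → ℝ) (ν : ℕ → ℕ → Ω → Plane) : Prop where
  measurable_X : ∀ i, Measurable (X i)
  measurable_T : ∀ i n, Measurable (T i n)
  measurable_ν : ∀ i n, Measurable (ν i n)
  poisson : IsPoissonProcess P X (lam • (volume : Measure Plane))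
  law_T : ∀ i n, P.map (T i n) = expMeasure 1
  law_ν : ∀ i n, P.map (ν i n) = stdGaussian Plane
  indep_T_ν : ∀ i n, IndepFun (T i n) (ν i n) P
  indep_marks : iIndepFun (fun (p : ℕ × ℕ) ω => (T p.1 p.2 ω, ν p.1 p.2 ω)) P
  indep_X : IndepFun (fun ω i => X i ω) (fun ω (p : ℕ × ℕ) => (T p.1 p.2 ω, ν p.1 p.2 ω)) P

/-- The radius process `𝓔_t` of the Pool model with initial positions `X i` and walks with
waiting times `T i` and steps `ν i`. -/
noncomputable def radius {Ω : Type*} (X : ℕ → Ω → Plane) (T : ℕ → ℕ → Ω → ℝ)
    (ν : ℕ → ℕ → Ω → Plane) (ω : Ω) (t : ℝ≥0) : ℝ≥0∞ :=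
  poolRadius (fun i s => X i ω + walk (fun n => T i n ω) (fun n => ν i n ω) s) t

end Pool.Agent.Helper40.PoolM
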