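import Pool.Agent.Helper40.PoolM.Defs

/-!
# The Pool model: mass balance
-/

set_option autoImplicit false

open MeasureTheory ProbabilityTheory Set
open scoped ENNReal NNReal

namespace Pool.Agent.Helper40.PoolM

variable {ι : Type*}

lemma disc_mono {r r' : ℝ≥0∞} (h : r ≤ r') : disc r ⊆ disc r' := fun _ hx => le_trans hx h

lemma pi_ne_zero' : ENNReal.ofReal Real.pi ≠ 0 := by
  rw [Ne, ENNReal.ofReal_eq_zero, not_le]; exact Real.pi_pos

lemma rpow_half_sq (x : ℝ≥0∞) : (x ^ (1 / 2 : ℝ)) ^ 2 = x := by
  rw [← ENNReal.rpow_natCast, ← ENNReal.rpow_mul]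
  norm_num

lemma sq_rpow_half (x : ℝ≥0∞) : (x ^ 2) ^ (1 / 2 : ℝ) = x := by
  rw [← ENNReal.rpow_natCast, ← ENNReal.rpow_mul]
  norm_num

lemma pi_mul_addArea_sq (r m : ℝ≥0∞) :
    ENNReal.ofReal Real.pi * addArea r m ^ 2 = ENNReal.ofReal Real.pi * r ^ 2 + m := by
  unfold addArea
  rw [rpow_half_sq, mul_add, ENNReal.mul_div_cancel pi_ne_zero' ENNReal.ofReal_ne_top]

lemma le_addArea (r m : ℝ≥0∞) : r ≤ addArea r m := by
  unfold addArea
  calc r = (r ^ 2) ^ (1 / 2 : ℝ) := (sq_rpow_half r).symm
    _ ≤ _ := ENNReal.rpow_le_rpow le_self_add (by norm_num)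

lemma addArea_zero (r : ℝ≥0∞) : addArea r 0 = r := by
  unfold addArea
  rw [ENNReal.zero_div, add_zero, sq_rpow_half]

lemma count_union (P : Set ι) (pos : ι → Plane) {S S' : Set Plane} (h : Disjoint S S') :
    count P pos (S ∪ S') = count P pos S + count P pos S' := by
  unfold count
  rw [← ENat.toENNReal_add, ← Set.encard_union_eq]
  · congr 2
    ext i
    simp only [mem_ofPred_eq, mem_union]
    tauto
  · rw [Set.disjoint_left]
    rintro i ⟨_, h1⟩ ⟨_, h2⟩
    exact Set.disjoint_left.mp h h1 h2

lemma count_empty (P : Set ι) (pos : ι → Plane) : count P pos ∅ = 0 := by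
  unfold count
  simp

lemma seq_inv (P : Set ι) (pos : ι → Plane) {S : Set Plane} {r : ℝ≥0∞} (hS : S ⊆ disc r) (j : ℕ) :
    S ⊆ (cascadeSeq P pos S r j).1 ∧
    (cascadeSeq P pos S r j).1 ⊆ disc (cascadeSeq P pos S r j).2 ∧
    ENNReal.ofReal Real.pi * (cascadeSeq P pos S r j).2 ^ 2 =
      ENNReal.ofReal Real.pi * r ^ 2 + count P pos ((cascadeSeq P pos S r j).1 \ S) := by
  induction j with
  | zero =>
    refine ⟨Subset.rfl, hS, ?_⟩
    show ENNReal.ofReal Real.pi * r ^ 2 = ENNReal.ofReal Real.pi * r ^ 2 + count P pos (S \ S)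
    rw [sdiff_self, count_empty, add_zero]
  | succ j ih =>
    obtain ⟨h1, h2, h3⟩ := ih
    refine ⟨h1.trans h2, disc_mono (le_addArea _ _), ?_⟩
    show ENNReal.ofReal Real.pi * addArea (cascadeSeq P pos S r j).2
        (count P pos (disc (cascadeSeq P pos S r j).2 \ (cascadeSeq P pos S r j).1)) ^ 2 = _
    rw [pi_mul_addArea_sq, h3, add_assoc, ← count_union]
    · congr 2
      show _ = disc (cascadeSeq P pos S r j).2 \ S
      ext x
      simp only [mem_union, mem_sdiff]
      constructor
      · rintro (⟨h4, h5⟩ | ⟨h4, h5⟩)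
        · exact ⟨h2 h4, h5⟩
        · exact ⟨h4, fun h6 => h5 (h1 h6)⟩
      · rintro ⟨h4, h5⟩
        by_cases h6 : x ∈ (cascadeSeq P pos S r j).1
        · exact Or.inl ⟨h6, h5⟩
        · exact Or.inr ⟨h4, h6⟩
    · rw [Set.disjoint_left]
      rintro x ⟨h4, _⟩ ⟨_, h6⟩
      exact h6 h4

/-- Mass balance of a cascade. -/
lemma cascade_area (P : Set ι) (pos : ι → Plane) {S : Set Plane} {r : ℝ≥0∞} (hS : S ⊆ disc r) :
    ENNReal.ofReal Real.pi * r ^ 2 + count P pos (disc (cascade P pos S r) \ S) ≤
      ENNReal.ofReal Real.pi * cascade P pos S r ^ 2 := by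
  classical
  unfold cascade
  split_ifs with h
  · have h0 := Nat.find_spec h
    obtain ⟨_, _, h3⟩ := seq_inv P pos hS (Nat.find h + 1)
    rw [h3]
    have h4 : (cascadeSeq P pos S r (Nat.find h + 1)).2 = (cascadeSeq P pos S r (Nat.find h)).2 := by
      show addArea (cascadeSeq P pos S r (Nat.find h)).2 (xi P pos S r (Nat.find h)) = _
      rw [h0, addArea_zero]
    rw [h4]
    exact le_rfl
  · rw [ENNReal.top_pow (by norm_num), ENNReal.mul_top pi_ne_zero']
    exact le_top

/-- The path of particle `i` is constant on some interval `[s, t]`, `s < t`. -/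
def NoJump (pos : ι → ℝ≥0 → Plane) (i : ι) (t : ℝ≥0) : Prop :=
  ∃ s < t, ∀ u, s ≤ u → u ≤ t → pos i u = pos i t

/-- No two particles jump at the same time. -/
def NoCommonJump (pos : ι → ℝ≥0 → Plane) : Prop :=
  ∀ t : ℝ≥0, 0 < t → ∀ i j, i ≠ j → NoJump pos i t ∨ NoJump pos j t

lemma poolState_succ (pos : ι → ℝ≥0 → Plane) (k : ℕ) :
    poolState pos (k + 1) = nextState pos (poolState pos k) := by
  unfold poolState
  rw [Function.iterate_succ_apply']

lemma time_le (pos : ι → ℝ≥0 → Plane) (k : ℕ) :
    (poolState pos k).time ≤ (poolState pos (k + 1)).time := by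
  rw [poolState_succ]
  show _ ≤ sInf _
  apply le_sInf
  rintro t ⟨h, _⟩
  exact h.le

/-- particles in the disc at the time of the state are absorbed -/
lemma mem_absorbed (pos : ι → ℝ≥0 → Plane) (k : ℕ) (i : ι)
    (hi : pos i (poolState pos k).time.toNNReal ∈ disc (poolState pos k).radius) :
    i ∈ (poolState pos k).absorbed := by
  cases k with
  | zero =>
    have : (poolState pos 0).time.toNNReal = 0 := by
      show (0 : ℝ≥0∞).toNNReal = 0
      simp
    rw [this] at hi
    exact hi
  | succ k =>
    rw [poolState_succ] at hi ⊢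
    exact Or.inr hi

/-- at most one active particle enters the disc at an absorption time -/
lemma entering_le_one {pos : ι → ℝ≥0 → Plane} (hpos : NoCommonJump pos) (k : ℕ)
    (hk : (poolState pos (k + 1)).time ≠ ∞) (i j : ι)
    (hi : i ∉ (poolState pos k).absorbed) (hj : j ∉ (poolState pos k).absorbed)
    (hi' : pos i (poolState pos (k + 1)).time.toNNReal ∈ disc (poolState pos k).radius)
    (hj' : pos j (poolState pos (k + 1)).time.toNNReal ∈ disc (poolState pos k).radius) :
    i = j := by
  by_contra hij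
  set s := poolState pos k with hs
  set t' := (poolState pos (k + 1)).time with ht'
  have hle : s.time ≤ t' := time_le pos k
  have htt : ((t'.toNNReal : ℝ≥0) : ℝ≥0∞) = t' := ENNReal.coe_toNNReal hk
  rcases hle.eq_or_lt with heq | hlt
  · rw [← heq] at hi'
    exact hi (mem_absorbed pos k i hi')
  · have hpos' : 0 < t'.toNNReal := by
      rw [← ENNReal.coe_pos, htt]
      exact lt_of_le_of_lt bot_le hlt
    have key : ∀ l : ι, l ∉ s.absorbed → pos l t'.toNNReal ∈ disc s.radius →
        ¬ NoJump pos l t'.toNNReal := by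
      rintro l hl hl' ⟨u, hu, hconst⟩
      have h1 : max s.time (u : ℝ≥0∞) < t' := by
        apply max_lt hlt
        rw [← htt]
        exact_mod_cast hu
      obtain ⟨v, hv1, hv2⟩ := exists_between h1
      have hvtop : v ≠ ∞ := (hv2.trans_le le_top).ne
      have h2 : v ∈ {t : ℝ≥0∞ | s.time < t ∧ t ≠ ∞ ∧
          ∃ i, i ∉ s.absorbed ∧ pos i t.toNNReal ∈ disc s.radius} := by
        refine ⟨lt_of_le_of_lt (le_max_left _ _) hv1, hvtop, l, hl, ?_⟩
        rw [hconst]
        · exact hl'
        · have h3 : (u : ℝ≥0∞) ≤ v := (le_max_right _ _).trans hv1.le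
          exact ENNReal.le_toNNReal_of_coe_le h3 hvtop
        · exact ENNReal.toNNReal_mono hk hv2.le
      have h3 : t' ≤ v := by
        rw [ht', poolState_succ]
        exact sInf_le h2
      exact absurd hv2 (not_lt.mpr h3)
    rcases hpos t'.toNNReal hpos' i j hij with h | h
    · exact key i hi hi' h
    · exact key j hj hj' h

/-- Mass balance: one plus the number of absorbed particles is at most the area. -/
lemma mass_balance {pos : ι → ℝ≥0 → Plane} (hpos : NoCommonJump pos) (k : ℕ)
    (hk : (poolState pos k).time ≠ ∞) :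
    1 + (((poolState pos k).absorbed.encard : ℕ∞) : ℝ≥0∞) ≤
      ENNReal.ofReal Real.pi * (poolState pos k).radius ^ 2 := by
  induction k with
  | zero =>
    have h := cascade_area univ (fun i => pos i 0) (S := ∅) (r := addArea 0 1) (empty_subset _)
    rw [pi_mul_addArea_sq] at h
    simp only [ne_eq, OfNat.ofNat_ne_zero, not_false_eq_true, zero_pow, mul_zero, zero_add,
      sdiff_empty] at h
    refine le_trans (le_of_eq ?_) h
    congr 3
    ext i
    simp only [mem_ofPred_eq, mem_univ, true_and]
    rfl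
  | succ k ih =>
    have hk' : (poolState pos k).time ≠ ∞ := ((time_le pos k).trans_lt (lt_top_iff_ne_top.mpr hk)).ne
    have ih := ih hk'
    have hent := entering_le_one hpos k hk
    rw [poolState_succ] at hent ⊢
    set s := poolState pos k with hs
    set q : ι → Plane := fun i => pos i (nextTime pos s).toNNReal with hq
    have h := cascade_area s.absorbedᶜ q (S := disc s.radius) (r := addArea s.radius 1)
      (disc_mono (le_addArea _ _))
    rw [pi_mul_addArea_sq] at h
    show 1 + (((s.absorbed ∪ {i | q i ∈ disc (nextRadius pos s)}).encard : ℕ∞) : ℝ≥0∞) ≤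
      ENNReal.ofReal Real.pi * nextRadius pos s ^ 2
    refine le_trans ?_ h
    have hsub : s.absorbed ∪ {i | q i ∈ disc (nextRadius pos s)} ⊆
        s.absorbed ∪ ({i | i ∉ s.absorbed ∧ q i ∈ disc s.radius} ∪
          {i | i ∈ s.absorbedᶜ ∧ q i ∈ disc (nextRadius pos s) \ disc s.radius}) := by
      intro i hi
      by_cases h1 : i ∈ s.absorbed
      · exact Or.inl h1
      · rcases hi with h2 | h2
        · exact absurd h2 h1
        · by_cases h3 : q i ∈ disc s.radius
          · exact Or.inr (Or.inl ⟨h1, h3⟩)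
          · exact Or.inr (Or.inr ⟨h1, h2, h3⟩)
    have hone : ({i | i ∉ s.absorbed ∧ q i ∈ disc s.radius} : Set ι).encard ≤ 1 := by
      rw [Set.encard_le_one_iff]
      rintro i j ⟨h1, h2⟩ ⟨h3, h4⟩
      exact hent i j h1 h3 h2 h4
    have hcard : (s.absorbed ∪ {i | q i ∈ disc (nextRadius pos s)}).encard ≤
        s.absorbed.encard + (1 + ({i | i ∈ s.absorbedᶜ ∧
          q i ∈ disc (nextRadius pos s) \ disc s.radius} : Set ι).encard) := by
      refine (Set.encard_le_encard hsub).trans ((Set.encard_union_le _ _).trans ?_)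
      gcongr
      refine (Set.encard_union_le _ _).trans ?_
      gcongr
    have hcard' : (((s.absorbed ∪ {i | q i ∈ disc (nextRadius pos s)}).encard : ℕ∞) : ℝ≥0∞) ≤
        ((s.absorbed.encard : ℕ∞) : ℝ≥0∞) + (1 + count s.absorbedᶜ q
          (disc (nextRadius pos s) \ disc s.radius)) := by
      have := ENat.toENNReal_mono hcard
      refine this.trans (le_of_eq ?_)
      unfold count
      push_cast
      rfl
    calc 1 + (((s.absorbed ∪ {i | q i ∈ disc (nextRadius pos s)}).encard : ℕ∞) : ℝ≥0∞)
        ≤ 1 + (((s.absorbed.encard : ℕ∞) : ℝ≥0∞) + (1 + count s.absorbedᶜ q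
          (disc (nextRadius pos s) \ disc s.radius))) := by gcongr
      _ = (1 + ((s.absorbed.encard : ℕ∞) : ℝ≥0∞)) + 1 + count s.absorbedᶜ q
          (disc (nextRadius pos s) \ disc s.radius) := by ring
      _ ≤ _ := by
          have : nextRadius pos s = cascade s.absorbedᶜ q (disc s.radius) (addArea s.radius 1) :=
            rfl
          rw [← this]
          gcongr

/-- Every freely moving particle lying in the disc at time `t` has been absorbed, hence the number
of such particles is at most `π 𝓔_t² - 1`. -/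
theorem free_count_le {pos : ι → ℝ≥0 → Plane} (hpos : NoCommonJump pos) (t : ℝ≥0) :
    1 + (({i | pos i t ∈ disc (poolRadius pos t)}.encard : ℕ∞) : ℝ≥0∞) ≤
      ENNReal.ofReal Real.pi * poolRadius pos t ^ 2 := by
  classical
  unfold poolRadius
  split_ifs with h
  · obtain ⟨h1, h2⟩ := Nat.find_spec h
    set k := Nat.find h with hk
    have htop : (poolState pos k).time ≠ ∞ := (h1.trans_lt ENNReal.coe_lt_top).ne
    refine le_trans ?_ (mass_balance hpos k htop)
    gcongr
    intro i hi
    by_contra hne
    rcases h1.eq_or_lt with heq | hlt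
    · apply hne
      apply mem_absorbed
      rw [heq]
      exact hi
    · have h3 : (t : ℝ≥0∞) ∈ {t : ℝ≥0∞ | (poolState pos k).time < t ∧ t ≠ ∞ ∧
          ∃ i, i ∉ (poolState pos k).absorbed ∧
            pos i t.toNNReal ∈ disc (poolState pos k).radius} :=
        ⟨hlt, ENNReal.coe_ne_top, i, hne, hi⟩
      have h4 : (poolState pos (k + 1)).time ≤ t := by
        rw [poolState_succ]
        exact sInf_le h3
      exact absurd h2 (not_lt.mpr h4)
  · rw [ENNReal.top_pow (by norm_num), ENNReal.mul_top pi_ne_zero']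
    exact le_top

/-! ### Consistency with the labels active / inactive -/

lemma time_mono (pos : ι → ℝ≥0 → Plane) : Monotone (fun k => (poolState pos k).time) :=
  monotone_nat_of_le_succ (time_le pos)

lemma absorbed_mono (pos : ι → ℝ≥0 → Plane) : Monotone (fun k => (poolState pos k).absorbed) := by
  apply monotone_nat_of_le_succ
  intro k
  rw [poolState_succ]
  exact subset_union_left

lemma radius_mono (pos : ι → ℝ≥0 → Plane) : Monotone (fun k => (poolState pos k).radius) := by
  apply monotone_nat_of_le_succ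
  intro k
  rw [poolState_succ]
  set s := poolState pos k with hs
  have h := cascade_area s.absorbedᶜ (fun i => pos i (nextTime pos s).toNNReal)
    (S := disc s.radius) (r := addArea s.radius 1) (disc_mono (le_addArea _ _))
  rw [pi_mul_addArea_sq] at h
  have h1 : ENNReal.ofReal Real.pi * s.radius ^ 2 ≤
      ENNReal.ofReal Real.pi * nextRadius pos s ^ 2 :=
    (le_trans (le_trans le_self_add le_self_add) h)
  have h2 : s.radius ^ 2 ≤ nextRadius pos s ^ 2 :=
    (ENNReal.mul_le_mul_iff_right pi_ne_zero' ENNReal.ofReal_ne_top).mp h1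
  exact (ENNReal.pow_le_pow_left_iff two_ne_zero).mp h2

/-- While `τ̂_k ≤ t < τ̂_{k+1}`, the absorbed particles of the `k`-th state are exactly the
inactive particles in the sense of the definition of the model: those `i` for which
`|pos i s| ≤ 𝓔_s` for some `s ≤ t`. -/
theorem absorbed_iff (pos : ι → ℝ≥0 → Plane) (k : ℕ) (t : ℝ≥0)
    (h1 : (poolState pos k).time ≤ t) (h2 : (t : ℝ≥0∞) < (poolState pos (k + 1)).time) (i : ι) :
    i ∈ (poolState pos k).absorbed ↔ ∃ s ≤ t, pos i s ∈ disc (poolRadius pos s) := by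
  classical
  constructor
  · intro hi
    have key : ∀ j, i ∈ (poolState pos j).absorbed → ∃ l ≤ j,
        pos i (poolState pos l).time.toNNReal ∈ disc (poolState pos l).radius := by
      intro j
      induction j with
      | zero =>
        intro h
        refine ⟨0, le_rfl, ?_⟩
        have : (poolState pos 0).time.toNNReal = 0 := by
          show (0 : ℝ≥0∞).toNNReal = 0
          simp
        rw [this]
        exact h
      | succ j ih =>
        intro h
        rw [poolState_succ] at h
        rcases h with h | h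
        · obtain ⟨l, hl, hl'⟩ := ih h
          exact ⟨l, by omega, hl'⟩
        · refine ⟨j + 1, le_rfl, ?_⟩
          rw [poolState_succ]
          exact h
    obtain ⟨l, hl, hl'⟩ := key k hi
    have hlk : (poolState pos l).time ≤ (poolState pos k).time := time_mono pos hl
    have hltop : (poolState pos l).time ≠ ∞ := ((hlk.trans h1).trans_lt ENNReal.coe_lt_top).ne
    refine ⟨(poolState pos l).time.toNNReal, ?_, ?_⟩
    · have h3 : (((poolState pos l).time.toNNReal : ℝ≥0) : ℝ≥0∞) ≤ t := by
        rw [ENNReal.coe_toNNReal hltop]; exact hlk.trans h1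
      exact_mod_cast h3
    · refine disc_mono ?_ hl'
      unfold poolRadius
      split_ifs with h
      · apply radius_mono pos
        obtain ⟨_, h4⟩ := Nat.find_spec h
        have h4' := (ENNReal.coe_toNNReal hltop).symm.trans_lt h4
        by_contra hcon
        have h5 : Nat.find h + 1 ≤ l := by omega
        exact absurd (time_mono pos h5) (not_le.mpr h4')
      · exact le_top
  · rintro ⟨s, hs, hpos⟩
    have hex : ∃ k, (poolState pos k).time ≤ s ∧ (s : ℝ≥0∞) < (poolState pos (k + 1)).time := by
      have h3 : (s : ℝ≥0∞) < (poolState pos (k + 1)).time :=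
        lt_of_le_of_lt (by exact_mod_cast hs) h2
      set q := Nat.find (⟨k + 1, h3⟩ : ∃ j, (s : ℝ≥0∞) < (poolState pos j).time) with hq
      have h4 : (s : ℝ≥0∞) < (poolState pos q).time :=
        Nat.find_spec (⟨k + 1, h3⟩ : ∃ j, (s : ℝ≥0∞) < (poolState pos j).time)
      have h5 : q ≠ 0 := by
        intro h6
        rw [h6] at h4
        exact absurd h4 (not_lt.mpr bot_le)
      obtain ⟨p, hp⟩ : ∃ p, q = p + 1 := ⟨q - 1, by omega⟩
      refine ⟨p, ?_, ?_⟩
      · have := Nat.find_min (⟨k + 1, h3⟩ : ∃ j, (s : ℝ≥0∞) < (poolState pos j).time)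
          (m := p) (by omega)
        exact not_lt.mp this
      · rw [← hp]; exact h4
    unfold poolRadius at hpos
    rw [dif_pos hex] at hpos
    obtain ⟨h3, h4⟩ := Nat.find_spec hex
    set q := Nat.find hex with hq
    have hqk : q ≤ k := by
      by_contra hcon
      have h5 : (poolState pos (k + 1)).time ≤ (poolState pos q).time :=
        time_mono pos (show k + 1 ≤ q by omega)
      have h6 : (s : ℝ≥0∞) ≤ t := by exact_mod_cast hs
      exact absurd ((h5.trans h3).trans h6) (not_le.mpr h2)
    apply absorbed_mono pos hqk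
    by_contra hne
    rcases h3.eq_or_lt with heq | hlt
    · apply hne
      apply mem_absorbed
      rw [heq]
      exact hpos
    · have h5 : (s : ℝ≥0∞) ∈ {t : ℝ≥0∞ | (poolState pos q).time < t ∧ t ≠ ∞ ∧
          ∃ i, i ∉ (poolState pos q).absorbed ∧
            pos i t.toNNReal ∈ disc (poolState pos q).radius} :=
        ⟨hlt, ENNReal.coe_ne_top, i, hne, hpos⟩
      have h6 : (poolState pos (q + 1)).time ≤ s := by
        rw [poolState_succ]
        exact sInf_le h5
      exact absurd h4 (not_lt.mpr h6)

end Pool.Agent.Helper40.PoolM
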