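import Mathlib

/-!
# Independent Poisson variables: a maximal inequality and a lower bound by tilting
-/

set_option autoImplicit false
set_option linter.unusedSectionVars false

open MeasureTheory ProbabilityTheory Set Filter
open scoped ENNReal NNReal Topology

namespace Pool.Agent.Helper40.PoolM

lemma hasSum_exp0 (r : ℝ) : HasSum (fun n : ℕ => r ^ n / n.factorial) (Real.exp r) := by
  have := NormedSpace.expSeries_div_hasSum_exp r
  rwa [← Real.exp_eq_exp_ℝ] at this

lemma hasSum_exp1 (r : ℝ) : HasSum (fun n : ℕ => (n : ℝ) * (r ^ n / n.factorial))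
    (r * Real.exp r) := by
  have h := (hasSum_exp0 r).mul_left r
  rw [← hasSum_nat_add_iff' 1]
  simp only [Finset.range_one, Finset.sum_singleton, Nat.cast_zero, zero_mul, sub_zero]
  convert! h using 2 with n
  rw [Nat.factorial_succ]
  have : ((n.factorial : ℕ) : ℝ) ≠ 0 := by exact_mod_cast n.factorial_ne_zero
  have h2 : ((n : ℝ) + 1) ≠ 0 := by positivity
  push_cast
  field_simp
  ring

lemma hasSum_exp2 (r : ℝ) : HasSum (fun n : ℕ => (n : ℝ) * ((n : ℝ) - 1) * (r ^ n / n.factorial))
    (r ^ 2 * Real.exp r) := by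
  have h := (hasSum_exp1 r).mul_left r
  have h' : r ^ 2 * Real.exp r = r * (r * Real.exp r) := by ring
  rw [h', ← hasSum_nat_add_iff' 1]
  simp only [Finset.range_one, Finset.sum_singleton, Nat.cast_zero, zero_mul, sub_zero]
  convert! h using 2 with n
  rw [Nat.factorial_succ]
  have : ((n.factorial : ℕ) : ℝ) ≠ 0 := by exact_mod_cast n.factorial_ne_zero
  have h2 : ((n : ℝ) + 1) ≠ 0 := by positivity
  push_cast
  field_simp
  ring

lemma hasSum_second (r x : ℝ) : HasSum (fun n : ℕ => (Real.exp (-r) * r ^ n / n.factorial) *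
    (x + n - r) ^ 2) (x ^ 2 + r) := by
  have h0 := (hasSum_exp0 r).mul_left (Real.exp (-r) * (x - r) ^ 2)
  have h1 := (hasSum_exp1 r).mul_left (Real.exp (-r) * (1 + 2 * (x - r)))
  have h2 := (hasSum_exp2 r).mul_left (Real.exp (-r))
  have h3 := (h0.add h1).add h2
  convert! h3 using 1
  · funext n
    ring
  · have : Real.exp (-r) * Real.exp r = 1 := by rw [← Real.exp_add]; simp
    linear_combination (-(x - r) ^ 2 - (1 + 2 * (x - r)) * r - r ^ 2) * this

lemma lintegral_second (r : ℝ≥0) (x c : ℝ) (hc : 0 ≤ c) :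
    ∫⁻ n : ℕ, ENNReal.ofReal ((x + n - r) ^ 2 + c) ∂(poissonMeasure r) =
      ENNReal.ofReal (x ^ 2 + r + c) := by
  have h1 := (hasSum_second r x).add ((hasSum_one_poissonMeasure r).mul_right c)
  have h2 : (fun n : ℕ => (Real.exp (-(r : ℝ)) * (r : ℝ) ^ n / n.factorial) * (x + n - r) ^ 2 +
      (Real.exp (-(r : ℝ)) * (r : ℝ) ^ n / n.factorial) * c) =
      fun n : ℕ => (Real.exp (-(r : ℝ)) * (r : ℝ) ^ n / n.factorial) * ((x + n - r) ^ 2 + c) := by
    funext n; ring
  rw [h2, one_mul] at h1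
  rw [lintegral_countable']
  have h3 : ∀ n : ℕ, ENNReal.ofReal ((x + n - r) ^ 2 + c) * (poissonMeasure r) {n} =
      ENNReal.ofReal ((Real.exp (-(r : ℝ)) * (r : ℝ) ^ n / n.factorial) *
        ((x + n - r) ^ 2 + c)) := by
    intro n
    rw [poissonMeasure_singleton, mul_comm, ← ENNReal.ofReal_mul (by positivity)]
  simp_rw [h3]
  rw [← ENNReal.ofReal_tsum_of_nonneg (fun n => by positivity) h1.summable, h1.tsum_eq]

/-- partial sums of centred variables -/
noncomputable def csum {M : ℕ} (lam : Fin M → ℝ≥0) (n : Fin M → ℕ) (j : ℕ) : ℝ :=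
  ∑ l : Fin M, if l.val < j then ((n l : ℝ) - lam l) else 0

/-- the event that the walk started from `x` leaves `(-y, y)` -/
def bad {M : ℕ} (lam : Fin M → ℝ≥0) (x y : ℝ) : Set (Fin M → ℕ) :=
  {n | ∃ j ≤ M, y ≤ |x + csum lam n j|}

lemma csum_zero {M : ℕ} (lam : Fin M → ℝ≥0) (n : Fin M → ℕ) : csum lam n 0 = 0 := by
  unfold csum
  simp

lemma csum_succ {M : ℕ} (lam : Fin (M + 1) → ℝ≥0) (a : ℕ) (n : Fin M → ℕ) (j : ℕ) :
    csum lam (Fin.cons a n) (j + 1) = (a - lam 0) + csum (fun l => lam l.succ) n j := by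
  unfold csum
  rw [Fin.sum_univ_succ]
  simp only [Fin.val_zero, Nat.succ_pos', if_true, Fin.cons_zero, Fin.val_succ,
    add_lt_add_iff_right, Fin.cons_succ]

/-- Kolmogorov's maximal inequality for centred Poisson variables. -/
theorem kolmogorov (M : ℕ) : ∀ (lam : Fin M → ℝ≥0) (x y : ℝ), 0 < y →
    Measure.pi (fun l => poissonMeasure (lam l)) (bad lam x y) ≤
      ENNReal.ofReal ((x ^ 2 + ∑ l, (lam l : ℝ)) / y ^ 2) := by
  induction M with
  | zero =>
    intro lam x y hy
    by_cases h : y ≤ |x|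
    · refine prob_le_one.trans ?_
      rw [← ENNReal.ofReal_one]
      apply ENNReal.ofReal_le_ofReal
      rw [le_div_iff₀ (by positivity), one_mul]
      simp only [Finset.univ_eq_empty, Finset.sum_empty, add_zero]
      rw [← sq_abs x]
      gcongr
    · have : bad lam x y = ∅ := by
        ext n
        simp only [bad, mem_ofPred_eq, mem_empty_iff_false, iff_false, not_exists, not_and]
        intro j hj
        have : j = 0 := by omega
        rw [this, csum_zero, add_zero]
        exact h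
      rw [this, measure_empty]
      exact bot_le
  | succ M ih =>
    intro lam x y hy
    by_cases h : y ≤ |x|
    · refine prob_le_one.trans ?_
      rw [← ENNReal.ofReal_one]
      apply ENNReal.ofReal_le_ofReal
      rw [le_div_iff₀ (by positivity), one_mul]
      have h1 : y ^ 2 ≤ x ^ 2 := by
        rw [← sq_abs x]
        gcongr
      have h2 : 0 ≤ ∑ l, (lam l : ℝ) := Finset.sum_nonneg (fun l _ => (lam l).2)
      linarith
    · have hmp := (measurePreserving_piFinSuccAbove (fun l => poissonMeasure (lam l)) 0).symm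
      have hmeas : MeasurableSet (bad lam x y) := MeasurableSet.of_discrete
      rw [← hmp.measure_preimage hmeas.nullMeasurableSet]
      rw [Measure.prod_apply (hmp.measurable hmeas)]
      have hslice : ∀ a : ℕ, (Prod.mk a ⁻¹' ((MeasurableEquiv.piFinSuccAbove
          (fun _ : Fin (M + 1) => ℕ) 0).symm ⁻¹' (bad lam x y))) =
          bad (fun l : Fin M => lam l.succ) (x + a - lam 0) y := by
        intro a
        ext n
        simp only [mem_preimage]
        have h1 : (MeasurableEquiv.piFinSuccAbove (fun _ : Fin (M + 1) => ℕ) 0).symm (a, n) =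
            (Fin.cons a n : Fin (M + 1) → ℕ) := by
          simp [MeasurableEquiv.piFinSuccAbove_symm_apply, Fin.insertNthEquiv]
        rw [h1]
        simp only [bad, mem_ofPred_eq]
        constructor
        · rintro ⟨j, hj, hj'⟩
          rcases Nat.eq_zero_or_pos j with h0 | h0
          · rw [h0, csum_zero, add_zero] at hj'
            exact absurd hj' h
          · obtain ⟨i, rfl⟩ : ∃ i, j = i + 1 := ⟨j - 1, by omega⟩
            refine ⟨i, by omega, ?_⟩
            rw [csum_succ] at hj'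
            have : x + ↑a - ↑(lam 0) + csum (fun l => lam l.succ) n i =
                x + (↑a - ↑(lam 0) + csum (fun l => lam l.succ) n i) := by ring
            rw [this]
            exact hj'
        · rintro ⟨i, hi, hi'⟩
          refine ⟨i + 1, by omega, ?_⟩
          rw [csum_succ]
          have : x + ↑a - ↑(lam 0) + csum (fun l => lam l.succ) n i =
              x + (↑a - ↑(lam 0) + csum (fun l => lam l.succ) n i) := by ring
          rw [← this]
          exact hi'
      have hle : ∀ a : ℕ, (Measure.pi (fun j : Fin M => poissonMeasure (lam ((0 : Fin (M + 1)).succAbove j))))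
          (Prod.mk a ⁻¹' ((MeasurableEquiv.piFinSuccAbove
          (fun _ : Fin (M + 1) => ℕ) 0).symm ⁻¹' (bad lam x y))) ≤
          ENNReal.ofReal (((x + a - lam 0) ^ 2 + ∑ l : Fin M, (lam l.succ : ℝ)) / y ^ 2) := by
        intro a
        rw [hslice a]
        exact ih (fun l => lam l.succ) (x + a - lam 0) y hy
      refine (lintegral_mono hle).trans ?_
      have h1 : ∀ a : ℕ, ENNReal.ofReal (((x + a - lam 0) ^ 2 + ∑ l : Fin M, (lam l.succ : ℝ)) / y ^ 2) =
          ENNReal.ofReal ((x + a - lam 0) ^ 2 + ∑ l : Fin M, (lam l.succ : ℝ)) *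
            ENNReal.ofReal (y ^ 2)⁻¹ := by
        intro a
        rw [div_eq_mul_inv, ENNReal.ofReal_mul]
        have : 0 ≤ ∑ l : Fin M, (lam l.succ : ℝ) := Finset.sum_nonneg (fun l _ => (lam l.succ).2)
        positivity
      simp_rw [h1]
      have h3 : 0 ≤ ∑ l : Fin M, (lam l.succ : ℝ) := Finset.sum_nonneg (fun l _ => (lam l.succ).2)
      have h2 : (0 : ℝ) ≤ lam 0 := (lam 0).2
      rw [lintegral_mul_const _ (by fun_prop), lintegral_second (lam 0) x _ h3,
        ← ENNReal.ofReal_mul (by positivity), Fin.sum_univ_succ, div_eq_mul_inv, add_assoc]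

/-- Change of measure. -/
theorem tilt {M : ℕ} (lam : Fin M → ℝ≥0) (x : ℝ≥0) (C : ℝ) (A : Set (Fin M → ℕ))
    (hA : ∀ n ∈ A, (∑ l, (n l : ℝ)) ≤ C) :
    ENNReal.ofReal (Real.exp (x * ∑ l, (lam l : ℝ) - x * C)) *
      Measure.pi (fun l => poissonMeasure ((1 + x) * lam l)) A ≤
    Measure.pi (fun l => poissonMeasure (lam l)) A := by
  have hmA : MeasurableSet A := MeasurableSet.of_discrete
  rw [← Measure.tsum_indicator_apply_singleton _ A hmA,
    ← Measure.tsum_indicator_apply_singleton (Measure.pi (fun l => poissonMeasure (lam l))) A hmA,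
    ← ENNReal.tsum_mul_left]
  apply ENNReal.tsum_le_tsum
  intro n
  by_cases hn : n ∈ A
  · rw [Set.indicator_of_mem hn, Set.indicator_of_mem hn, Measure.pi_singleton,
      Measure.pi_singleton]
    simp_rw [poissonMeasure_singleton]
    rw [← ENNReal.ofReal_prod_of_nonneg (fun l _ => by positivity),
      ← ENNReal.ofReal_prod_of_nonneg (fun l _ => by positivity),
      ← ENNReal.ofReal_mul (Real.exp_nonneg _)]
    apply ENNReal.ofReal_le_ofReal
    have h1 : ∏ l, (Real.exp (-(((1 + x) * lam l : ℝ≥0) : ℝ)) * (((1 + x) * lam l : ℝ≥0) : ℝ) ^ n l /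
        (n l).factorial) =
        Real.exp (-(x * ∑ l, (lam l : ℝ))) * (1 + (x : ℝ)) ^ (∑ l, n l) *
          ∏ l, (Real.exp (-(lam l : ℝ)) * (lam l : ℝ) ^ n l / (n l).factorial) := by
      rw [← Finset.prod_pow_eq_pow_sum, Finset.mul_sum, ← Finset.sum_neg_distrib, Real.exp_sum,
        ← Finset.prod_mul_distrib, ← Finset.prod_mul_distrib]
      apply Finset.prod_congr rfl
      intro l _
      push_cast
      have : Real.exp (-((1 + (x : ℝ)) * lam l)) = Real.exp (-(x * lam l)) * Real.exp (-(lam l : ℝ)) := by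
        rw [← Real.exp_add]; congr 1; ring
      rw [this, mul_pow]
      ring
    rw [h1]
    set R := ∏ l, (Real.exp (-(lam l : ℝ)) * (lam l : ℝ) ^ n l / (n l).factorial) with hR
    have hR0 : 0 ≤ R := Finset.prod_nonneg (fun l _ => by positivity)
    have h2 : (1 + (x : ℝ)) ^ (∑ l, n l) ≤ Real.exp (x * C) := by
      have h3 : (1 + (x : ℝ)) ≤ Real.exp x := by
        have := Real.add_one_le_exp (x : ℝ); linarith
      calc (1 + (x : ℝ)) ^ (∑ l, n l) ≤ (Real.exp x) ^ (∑ l, n l) := by
            gcongr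
        _ = Real.exp (x * ∑ l, (n l : ℝ)) := by
            rw [← Real.exp_nat_mul]
            push_cast
            congr 1
            ring
        _ ≤ Real.exp (x * C) := by
            apply Real.exp_le_exp.mpr
            exact mul_le_mul_of_nonneg_left (hA n hn) x.2
    calc Real.exp (x * ∑ l, (lam l : ℝ) - x * C) * (Real.exp (-(x * ∑ l, (lam l : ℝ))) *
          (1 + (x : ℝ)) ^ (∑ l, n l) * R)
        ≤ Real.exp (x * ∑ l, (lam l : ℝ) - x * C) * (Real.exp (-(x * ∑ l, (lam l : ℝ))) *
          Real.exp (x * C) * R) := by gcongr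
      _ = R := by
          rw [← mul_assoc, ← mul_assoc, ← Real.exp_add, ← Real.exp_add]
          have : x * ∑ l, (lam l : ℝ) - x * C + -(x * ∑ l, (lam l : ℝ)) + x * C = 0 := by ring
          rw [this, Real.exp_zero, one_mul]
  · rw [Set.indicator_of_notMem hn, mul_zero]
    exact bot_le

/-- The event that the partial counts stay above the mean. -/
def above {M : ℕ} (α : ℝ) : Set (Fin M → ℕ) :=
  {n | ∀ j : ℕ, α * M ≤ j → j ≤ M → (j : ℝ) + 1 ≤ ∑ l : Fin M, if l.val < j then (n l : ℝ) else 0}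

theorem above_bound {α : ℝ} (hα : 0 < α) {M : ℕ} (lam : Fin M → ℝ≥0)
    (hlam : ∀ l, lam l ≤ 1) {δ : ℝ} (hδ : ∑ l, (1 - (lam l : ℝ)) ≤ δ) (hM0 : 0 < M)
    (hM : (4 / α) ^ 2 ≤ M) (hM2 : 2 * δ + 1 ≤ 2 * Real.sqrt M) :
    ENNReal.ofReal (Real.exp (-(4 / α) ^ 2 - 2 * (4 / α)) / 2) ≤
      Measure.pi (fun l => poissonMeasure (lam l)) (above α) := by
  have hMr : (0 : ℝ) < M := by exact_mod_cast hM0
  have hs : 0 < Real.sqrt M := Real.sqrt_pos.mpr hMr
  have hss : Real.sqrt M * Real.sqrt M = M := Real.mul_self_sqrt hMr.le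
  set K := 4 / α with hK
  have hK0 : 0 < K := by positivity
  have hKs : K ≤ Real.sqrt M := Real.le_sqrt_of_sq_le hM
  set x : ℝ≥0 := ⟨K / Real.sqrt M, by positivity⟩ with hx
  have hxr : (x : ℝ) = K / Real.sqrt M := rfl
  have hx1 : (x : ℝ) ≤ 1 := by rw [hxr]; exact (div_le_one hs).mpr hKs
  have hx0 : 0 ≤ (x : ℝ) := x.2
  have hxs : (x : ℝ) * Real.sqrt M = K := by rw [hxr]; field_simp
  have hxM : (x : ℝ) ^ 2 * M = K ^ 2 := by
    rw [← hss, ← hxs]; ring
  set Λ : ℝ := ∑ l, (lam l : ℝ) with hΛ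
  have hΛ0 : 0 ≤ Λ := Finset.sum_nonneg (fun l _ => (lam l).2)
  have hΛM : Λ ≤ M := by
    calc Λ ≤ ∑ l : Fin M, (1 : ℝ) := Finset.sum_le_sum (fun l _ => by exact_mod_cast hlam l)
      _ = M := by simp
  have hδ0 : 0 ≤ δ := by
    refine le_trans (Finset.sum_nonneg (fun l _ => ?_)) hδ
    have : (lam l : ℝ) ≤ 1 := by exact_mod_cast hlam l
    linarith
  set C := (1 + (x : ℝ)) * Λ + 2 * Real.sqrt M with hC
  set lam' : Fin M → ℝ≥0 := fun l => (1 + x) * lam l with hlam'
  have hlam'r : ∀ l, (lam' l : ℝ) = (1 + (x : ℝ)) * lam l := by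
    intro l; rw [hlam']; push_cast; rfl
  set G : Set (Fin M → ℕ) := (bad lam' 0 (2 * Real.sqrt M))ᶜ with hG
  have hGm : MeasurableSet (bad lam' 0 (2 * Real.sqrt M)) := MeasurableSet.of_discrete
  -- the good event has probability at least one half
  have hGp : ENNReal.ofReal (1 / 2) ≤ Measure.pi (fun l => poissonMeasure (lam' l)) G := by
    have h1 := kolmogorov M lam' 0 (2 * Real.sqrt M) (by positivity)
    have h2 : (0 ^ 2 + ∑ l, (lam' l : ℝ)) / (2 * Real.sqrt M) ^ 2 ≤ 1 / 2 := by
      have h3 : ∑ l, (lam' l : ℝ) ≤ 2 * M := by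
        simp_rw [hlam'r]
        rw [← Finset.mul_sum]
        exact mul_le_mul (by linarith) hΛM hΛ0 (by norm_num)
      rw [div_le_div_iff₀ (by positivity) (by norm_num)]
      nlinarith
    rw [hG, prob_compl_eq_one_sub hGm]
    have h4 : Measure.pi (fun l => poissonMeasure (lam' l)) (bad lam' 0 (2 * Real.sqrt M)) ≤
        ENNReal.ofReal (1 / 2) := h1.trans (ENNReal.ofReal_le_ofReal h2)
    calc ENNReal.ofReal (1 / 2) = 1 - ENNReal.ofReal (1 / 2) := by
          rw [← ENNReal.ofReal_one, ← ENNReal.ofReal_sub _ (by norm_num)]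
          norm_num
      _ ≤ _ := tsub_le_tsub_left h4 1
  -- on the good event
  have hgood : ∀ n ∈ G, ∀ j ≤ M, |csum lam' n j| < 2 * Real.sqrt M := by
    intro n hn j hj
    by_contra hcon
    apply hn
    refine ⟨j, hj, ?_⟩
    rw [zero_add]
    exact not_lt.mp hcon
  have hcs : ∀ (n : Fin M → ℕ) (j : ℕ), csum lam' n j =
      (∑ l : Fin M, if l.val < j then (n l : ℝ) else 0) -
        (1 + (x : ℝ)) * ∑ l : Fin M, if l.val < j then (lam l : ℝ) else 0 := by
    intro n j
    unfold csum
    rw [Finset.mul_sum, ← Finset.sum_sub_distrib]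
    apply Finset.sum_congr rfl
    intro l _
    rw [hlam'r]
    split_ifs <;> ring
  have hGC : ∀ n ∈ G, (∑ l, (n l : ℝ)) ≤ C := by
    intro n hn
    have h1 := hgood n hn M le_rfl
    rw [hcs] at h1
    have h2 : ∀ f : Fin M → ℝ, (∑ l : Fin M, if l.val < M then f l else 0) = ∑ l, f l := by
      intro f
      apply Finset.sum_congr rfl
      intro l _
      rw [if_pos l.2]
    rw [h2 (fun l => (n l : ℝ)), h2 (fun l => (lam l : ℝ))] at h1
    have h3 := (abs_lt.mp h1).2
    rw [hC]
    linarith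
  have hGabove : G ⊆ above α := by
    intro n hn j hj1 hj2
    have h1 := (abs_lt.mp (hgood n hn j hj2)).1
    rw [hcs] at h1
    have h2 : (j : ℝ) - δ ≤ ∑ l : Fin M, if l.val < j then (lam l : ℝ) else 0 := by
      have h3 : (j : ℝ) = ∑ l : Fin M, if l.val < j then (1 : ℝ) else 0 := by
        rw [Finset.sum_ite, Finset.sum_const_zero, add_zero, Finset.sum_const, nsmul_eq_mul, mul_one]
        congr 1
        have : (Finset.univ.filter (fun l : Fin M => l.val < j)).card = j := by
          rw [Fin.card_filter_val_lt]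
          omega
        exact this.symm
      have h4 : (∑ l : Fin M, if l.val < j then (1 : ℝ) else 0) -
          (∑ l : Fin M, if l.val < j then (lam l : ℝ) else 0) ≤ ∑ l, (1 - (lam l : ℝ)) := by
        rw [← Finset.sum_sub_distrib]
        apply Finset.sum_le_sum
        intro l _
        have : (lam l : ℝ) ≤ 1 := by exact_mod_cast hlam l
        split_ifs
        · exact le_rfl
        · linarith
      linarith
    have h5 : 4 * Real.sqrt M ≤ (x : ℝ) * j := by
      have h6 : (x : ℝ) * (α * M) = 4 * Real.sqrt M := by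
        calc (x : ℝ) * (α * M) = (x : ℝ) * (α * (Real.sqrt M * Real.sqrt M)) := by rw [hss]
          _ = ((x : ℝ) * Real.sqrt M) * (α * Real.sqrt M) := by ring
          _ = K * (α * Real.sqrt M) := by rw [hxs]
          _ = 4 * Real.sqrt M := by rw [hK]; field_simp
      rw [← h6]
      exact mul_le_mul_of_nonneg_left hj1 hx0
    have h7 : (1 + (x : ℝ)) * ((j : ℝ) - δ) ≤
        (1 + (x : ℝ)) * ∑ l : Fin M, if l.val < j then (lam l : ℝ) else 0 :=
      mul_le_mul_of_nonneg_left h2 (by linarith)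
    have h8 : (x : ℝ) * δ ≤ δ := by nlinarith
    nlinarith
  have htilt := tilt lam x C G hGC
  calc ENNReal.ofReal (Real.exp (-K ^ 2 - 2 * K) / 2)
      ≤ ENNReal.ofReal (Real.exp (x * Λ - x * C)) * ENNReal.ofReal (1 / 2) := by
        rw [← ENNReal.ofReal_mul (Real.exp_nonneg _)]
        apply ENNReal.ofReal_le_ofReal
        have : Real.exp (-K ^ 2 - 2 * K) ≤ Real.exp (x * Λ - x * C) := by
          apply Real.exp_le_exp.mpr
          rw [hC]
          have h1 : (x : ℝ) * Λ - x * ((1 + (x : ℝ)) * Λ + 2 * Real.sqrt M) =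
              -((x : ℝ) ^ 2 * Λ) - 2 * ((x : ℝ) * Real.sqrt M) := by ring
          rw [h1, hxs]
          have h2 : (x : ℝ) ^ 2 * Λ ≤ (x : ℝ) ^ 2 * M := mul_le_mul_of_nonneg_left hΛM (by positivity)
          rw [hxM] at h2
          linarith
        linarith
    _ ≤ ENNReal.ofReal (Real.exp (x * Λ - x * C)) *
          Measure.pi (fun l => poissonMeasure (lam' l)) G := by gcongr
    _ ≤ Measure.pi (fun l => poissonMeasure (lam l)) G := htilt
    _ ≤ _ := measure_mono hGabove

end Pool.Agent.Helper40.PoolM
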