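import Pool.Agent.Helper40.PoolM.Mark2
import Pool.Agent.Helper40.PoolM.Walk

/-!
# The Pool model: annuli of unit area and the choice of scales
-/

set_option autoImplicit false
set_option linter.unusedSectionVars false

open MeasureTheory ProbabilityTheory Set Filter
open scoped ENNReal NNReal Topology

namespace Pool.Agent.Helper40.PoolM

/-- The disc of area `c` -/
def areaDisc (c : ℝ) : Set Plane := {x | Real.pi * ‖x‖ ^ 2 ≤ c}

/-- The `l`-th annulus of unit area -/
def annulus (l : ℕ) : Set Plane := {x | (l : ℝ) < Real.pi * ‖x‖ ^ 2 ∧ Real.pi * ‖x‖ ^ 2 ≤ l + 1}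

/-- starting region -/
def ring (L L' : ℕ) : Set Plane := {x | (L : ℝ) < ‖x‖ ∧ ‖x‖ ≤ L'}

lemma measurableSet_areaDisc (c : ℝ) : MeasurableSet (areaDisc c) :=
  measurableSet_le (by fun_prop) measurable_const

lemma measurableSet_annulus (l : ℕ) : MeasurableSet (annulus l) := by
  have h1 : MeasurableSet {x : Plane | (l : ℝ) < Real.pi * ‖x‖ ^ 2} :=
    measurableSet_lt measurable_const (by fun_prop)
  have h2 : MeasurableSet {x : Plane | Real.pi * ‖x‖ ^ 2 ≤ (l : ℝ) + 1} :=
    measurableSet_le (by fun_prop) measurable_const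
  exact h1.inter h2

lemma measurableSet_ring (L L' : ℕ) : MeasurableSet (ring L L') := by
  have h1 : MeasurableSet {x : Plane | (L : ℝ) < ‖x‖} :=
    measurableSet_lt measurable_const (by fun_prop)
  have h2 : MeasurableSet {x : Plane | ‖x‖ ≤ (L' : ℝ)} :=
    measurableSet_le (by fun_prop) measurable_const
  exact h1.inter h2

lemma areaDisc_eq {c : ℝ} (hc : 0 ≤ c) :
    areaDisc c = Metric.closedBall (0 : Plane) (Real.sqrt (c / Real.pi)) := by
  have hpi := Real.pi_pos
  have hc' : 0 ≤ c / Real.pi := by positivity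
  ext x
  rw [areaDisc, mem_ofPred_eq, mem_closedBall_zero_iff, Real.le_sqrt (norm_nonneg x), le_div_iff₀ hpi,
    mul_comm]
  exact hc'

lemma volume_areaDisc {c : ℝ} (hc : 0 ≤ c) :
    (volume : Measure Plane) (areaDisc c) = ENNReal.ofReal c := by
  have hpi := Real.pi_pos
  rw [areaDisc_eq hc, EuclideanSpace.volume_closedBall_fin_two,
    ← ENNReal.ofReal_pow (Real.sqrt_nonneg _), Real.sq_sqrt (by positivity),
    ← ENNReal.ofReal_mul (by positivity)]
  congr 1
  field_simp

lemma volume_annulus (l : ℕ) : (volume : Measure Plane) (annulus l) = 1 := by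
  have h1 : annulus l = areaDisc ((l : ℝ) + 1) \ areaDisc l := by
    ext x
    simp only [annulus, areaDisc, mem_ofPred_eq, Set.mem_sdiff, not_le]
    tauto
  rw [h1, measure_sdiff _ (measurableSet_areaDisc _).nullMeasurableSet]
  · rw [volume_areaDisc (by positivity), volume_areaDisc (by positivity),
      ← ENNReal.ofReal_sub _ (by positivity)]
    simp
  · rw [volume_areaDisc (by positivity)]
    exact ENNReal.ofReal_ne_top
  · intro x hx
    simp only [areaDisc, mem_ofPred_eq] at hx ⊢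
    linarith

lemma annulus_disjoint {l l' : ℕ} (h : l ≠ l') : Disjoint (annulus l) (annulus l') := by
  rw [Set.disjoint_left]
  rintro x ⟨h1, h2⟩ ⟨h3, h4⟩
  rcases lt_or_gt_of_ne h with h5 | h5
  · have : (l : ℝ) + 1 ≤ l' := by exact_mod_cast h5
    linarith
  · have : (l' : ℝ) + 1 ≤ l := by exact_mod_cast h5
    linarith

lemma ring_disjoint {L L' K K' : ℕ} (h : L' ≤ K) : Disjoint (ring L L') (ring K K') := by
  rw [Set.disjoint_left]
  rintro x ⟨h1, h2⟩ ⟨h3, h4⟩
  have : (L' : ℝ) ≤ K := by exact_mod_cast h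
  linarith

section

variable {W : Type*} [MeasurableSpace W] {Q : Measure W} [IsProbabilityMeasure Q]

/-- translation invariance -/
lemma prod_shift {D : W → Plane} (hD : Measurable D) {R : Set Plane} (hR : MeasurableSet R) :
    ((volume : Measure Plane).prod Q) {z : Plane × W | z.1 + D z.2 ∈ R} = volume R := by
  have hm : Measurable (fun z : Plane × W => z.1 + D z.2) :=
    measurable_fst.add (hD.comp measurable_snd)
  have hms : MeasurableSet {z : Plane × W | z.1 + D z.2 ∈ R} := hm hR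
  rw [Measure.prod_apply_symm hms]
  have : ∀ w, (volume : Measure Plane) ((fun x => (x, w)) ⁻¹' {z : Plane × W | z.1 + D z.2 ∈ R}) =
      volume R := by
    intro w
    have h1 : ((fun x => (x, w)) ⁻¹' {z : Plane × W | z.1 + D z.2 ∈ R}) =
        (fun x => x + D w) ⁻¹' R := rfl
    rw [h1, measure_preimage_add_right]
  rw [lintegral_congr this, lintegral_const, measure_univ, mul_one]

/-- the sets of marked points -/
def ASet (D : W → Plane) (L L' l : ℕ) : Set (Plane × W) :=
  {z | z.1 ∈ ring L L' ∧ z.1 + D z.2 ∈ annulus l}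

lemma measurableSet_ASet {D : W → Plane} (hD : Measurable D) (L L' l : ℕ) :
    MeasurableSet (ASet D L L' l) :=
  (measurable_fst (measurableSet_ring L L')).inter
    ((measurable_fst.add (hD.comp measurable_snd)) (measurableSet_annulus l))

/-- intensity of the marked points -/
noncomputable def rate (Q : Measure W) (D : W → Plane) (L L' l : ℕ) : ℝ≥0 :=
  (((volume : Measure Plane).prod Q) (ASet D L L' l)).toNNReal

lemma ASet_le_one {D : W → Plane} (hD : Measurable D) (L L' l : ℕ) :
    ((volume : Measure Plane).prod Q) (ASet D L L' l) ≤ 1 := by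
  calc _ ≤ ((volume : Measure Plane).prod Q) {z : Plane × W | z.1 + D z.2 ∈ annulus l} :=
        measure_mono (fun z hz => hz.2)
    _ = 1 := by rw [prod_shift hD (measurableSet_annulus l), volume_annulus]

lemma rate_le_one {D : W → Plane} (hD : Measurable D) (L L' l : ℕ) : rate Q D L L' l ≤ 1 := by
  unfold rate
  have := ENNReal.toNNReal_mono ENNReal.one_ne_top (ASet_le_one (Q := Q) hD L L' l)
  simpa using this

/-- deficit of the rates -/
lemma deficit {D : W → Plane} (hD : Measurable D) (L L' M : ℕ)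
    (htail : ((volume : Measure Plane).prod Q) {z : Plane × W | (L' : ℝ) < ‖z.1‖ ∧
      z.1 + D z.2 ∈ areaDisc M} ≤ 1) :
    ∑ l : Fin M, (1 - (rate Q D L L' l : ℝ)) ≤ Real.pi * L ^ 2 + 1 := by
  set μ := (volume : Measure Plane).prod Q with hμ
  set V : ℕ → Set (Plane × W) := fun l => {z | z.1 ∉ ring L L' ∧ z.1 + D z.2 ∈ annulus l} with hV
  have hVm : ∀ l, MeasurableSet (V l) := fun l =>
    ((measurable_fst (measurableSet_ring L L')).compl).inter
      ((measurable_fst.add (hD.comp measurable_snd)) (measurableSet_annulus l))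
  have h1 : ∀ l, μ (ASet D L L' l) + μ (V l) = 1 := by
    intro l
    rw [← measure_union]
    · have : ASet D L L' l ∪ V l = {z : Plane × W | z.1 + D z.2 ∈ annulus l} := by
        ext z
        simp only [ASet, hV, mem_union, mem_ofPred_eq]
        tauto
      rw [this, hμ, prod_shift hD (measurableSet_annulus l), volume_annulus]
    · rw [Set.disjoint_left]
      rintro z ⟨h2, _⟩ ⟨h3, _⟩
      exact h3 h2
    · exact hVm l
  have h2 : ∀ l, 1 - (rate Q D L L' l : ℝ) = (μ (V l)).toReal := by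
    intro l
    have h3 := congrArg ENNReal.toReal (h1 l)
    have h4 : μ (ASet D L L' l) ≠ ∞ := ((ASet_le_one hD L L' l).trans_lt ENNReal.one_lt_top).ne
    have h5 : μ (V l) ≠ ∞ := by
      intro h6
      have := h1 l
      rw [h6, add_top] at this
      exact ENNReal.top_ne_one this
    rw [ENNReal.toReal_add h4 h5, ENNReal.toReal_one] at h3
    have h6 : (rate Q D L L' l : ℝ) = (μ (ASet D L L' l)).toReal := rfl
    rw [h6]
    linarith
  have h3 : ∑ l : Fin M, μ (V l) ≤ ENNReal.ofReal (Real.pi * L ^ 2 + 1) := by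
    have h4 : ∑ l : Fin M, μ (V l) = μ (⋃ l ∈ (Finset.univ : Finset (Fin M)), V l) := by
      rw [measure_biUnion_finset]
      · intro a _ b _ hab
        rw [Function.onFun, Set.disjoint_left]
        rintro z ⟨_, h5⟩ ⟨_, h6⟩
        exact Set.disjoint_left.mp (annulus_disjoint (fun h => hab (Fin.ext h))) h5 h6
      · intro l _; exact hVm l
    rw [h4]
    have h5 : (⋃ l ∈ (Finset.univ : Finset (Fin M)), V l) ⊆
        ((Metric.closedBall (0 : Plane) L) ×ˢ (univ : Set W)) ∪
          {z : Plane × W | (L' : ℝ) < ‖z.1‖ ∧ z.1 + D z.2 ∈ areaDisc M} := by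
      intro z hz
      simp only [mem_iUnion] at hz
      obtain ⟨l, _, hz1, hz2⟩ := hz
      by_cases h6 : ‖z.1‖ ≤ L
      · left
        exact ⟨mem_closedBall_zero_iff.mpr h6, mem_univ _⟩
      · right
        refine ⟨?_, ?_⟩
        · by_contra h7
          exact hz1 ⟨not_le.mp h6, not_lt.mp h7⟩
        · have h8 : ((l : ℕ) : ℝ) + 1 ≤ M := by exact_mod_cast l.2
          exact hz2.2.trans h8
    refine (measure_mono h5).trans ((measure_union_le _ _).trans ?_)
    rw [ENNReal.ofReal_add (by positivity) zero_le_one, ENNReal.ofReal_one]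
    have h9 : μ ((Metric.closedBall (0 : Plane) L) ×ˢ (univ : Set W)) =
        ENNReal.ofReal (Real.pi * L ^ 2) := by
      rw [hμ, Measure.prod_prod, measure_univ, mul_one, EuclideanSpace.volume_closedBall_fin_two,
        ← ENNReal.ofReal_pow (by positivity), ← ENNReal.ofReal_mul (by positivity), mul_comm]
    rw [h9]
    exact add_le_add_right htail _
  simp_rw [h2]
  rw [← ENNReal.toReal_sum]
  · exact ENNReal.toReal_le_of_le_ofReal (by positivity) h3
  · intro l _ h6
    have := h1 l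
    rw [h6, add_top] at this
    exact ENNReal.top_ne_one this

/-- the tail vanishes -/
lemma exists_tail {D : W → Plane} (hD : Measurable D) (M L : ℕ) : ∃ L' > L,
    ((volume : Measure Plane).prod Q) {z : Plane × W | (L' : ℝ) < ‖z.1‖ ∧
      z.1 + D z.2 ∈ areaDisc M} ≤ 1 := by
  set μ := (volume : Measure Plane).prod Q with hμ
  set U : ℕ → Set (Plane × W) := fun n => {z | (n : ℝ) < ‖z.1‖ ∧ z.1 + D z.2 ∈ areaDisc M} with hU
  have hUm : ∀ n, MeasurableSet (U n) := by
    intro n
    have h1 : MeasurableSet {z : Plane × W | (n : ℝ) < ‖z.1‖} :=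
      measurableSet_lt measurable_const (by fun_prop)
    exact h1.inter ((measurable_fst.add (hD.comp measurable_snd)) (measurableSet_areaDisc M))
  have hanti : Antitone U := by
    intro n m hnm z hz
    refine ⟨lt_of_le_of_lt ?_ hz.1, hz.2⟩
    exact_mod_cast hnm
  have hfin : ∃ n, μ (U n) ≠ ∞ := by
    refine ⟨0, ?_⟩
    have h1 : μ (U 0) ≤ μ {z : Plane × W | z.1 + D z.2 ∈ areaDisc M} :=
      measure_mono (fun z hz => hz.2)
    rw [hμ, prod_shift hD (measurableSet_areaDisc _), volume_areaDisc (by positivity)] at h1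
    exact (h1.trans_lt ENNReal.ofReal_lt_top).ne
  have h2 := tendsto_measure_iInter_atTop (μ := μ) (s := U) (fun n => (hUm n).nullMeasurableSet)
    hanti hfin
  have h3 : (⋂ n, U n) = ∅ := by
    ext z
    simp only [mem_iInter, mem_empty_iff_false, iff_false, not_forall]
    obtain ⟨n, hn⟩ := exists_nat_gt ‖z.1‖
    refine ⟨n, fun h => ?_⟩
    exact absurd h.1 (not_lt.mpr hn.le)
  rw [h3, measure_empty] at h2
  have h4 : ∀ᶠ n in atTop, μ (U n) < 1 := h2.eventually (gt_mem_nhds zero_lt_one)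
  obtain ⟨n, hn1, hn2⟩ := (h4.and (eventually_gt_atTop L)).exists
  exact ⟨n, hn2, hn1.le⟩

/-- the number of annuli considered at time `n` -/
noncomputable def nAnn (m n : ℕ) : ℕ := ⌈Real.pi * (m : ℝ) ^ 2 * (n : ℝ) ^ 2⌉₊

/-- the fraction -/
noncomputable def frac (m : ℕ) : ℝ := 1 / (4 * (m : ℝ) ^ 4)

/-- the lower bound for the probabilities -/
noncomputable def pBound (m : ℕ) : ℝ := Real.exp (-(4 / frac m) ^ 2 - 2 * (4 / frac m)) / 2

lemma exists_scale {D : ℕ → W → Plane} (hD : ∀ n, Measurable (D n)) {m : ℕ} (hm : 0 < m) (L : ℕ) :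
    ∃ n L' : ℕ, m ≤ n ∧ L ≤ n ∧ L < L' ∧
      ENNReal.ofReal (pBound m) ≤ Measure.pi (fun l : Fin (nAnn m n) =>
        poissonMeasure (rate Q (D n) L L' l)) (above (frac m)) := by
  have hpi3 := Real.pi_gt_three
  have hpi4 := Real.pi_lt_four
  set n := m + 16 * m ^ 4 + 4 * L ^ 2 + 2 + L with hn
  obtain ⟨L', hL', htail⟩ := exists_tail (Q := Q) (hD n) (nAnn m n) L
  refine ⟨n, L', by omega, by omega, hL', ?_⟩
  have hmr : (1 : ℝ) ≤ m := by exact_mod_cast hm
  have hnr : (n : ℝ) = m + 16 * (m : ℝ) ^ 4 + 4 * (L : ℝ) ^ 2 + 2 + L := by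
    rw [hn]; push_cast; ring
  have hn2 : (2 : ℝ) ≤ n := by rw [hnr]; nlinarith [show (0:ℝ) ≤ (m:ℝ)^4 by positivity, sq_nonneg (L : ℝ), show (0:ℝ) ≤ (L:ℝ) by positivity]
  have hM1 : Real.pi * (m : ℝ) ^ 2 * (n : ℝ) ^ 2 ≤ nAnn m n := Nat.le_ceil _
  have hMn : (n : ℝ) ^ 2 ≤ nAnn m n := by
    refine le_trans ?_ hM1
    have h1 : (1 : ℝ) ≤ Real.pi * (m : ℝ) ^ 2 := by nlinarith
    nlinarith [sq_nonneg (n : ℝ)]
  have hfr : 0 < frac m := by unfold frac; positivity
  have hsq : (n : ℝ) ≤ Real.sqrt (nAnn m n) := Real.le_sqrt_of_sq_le hMn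
  refine above_bound hfr _ ?_ (δ := Real.pi * L ^ 2 + 1) ?_ ?_ ?_ ?_
  · intro l; exact rate_le_one (hD n) _ _ _
  · exact deficit (hD n) L L' _ htail
  · have : (0 : ℝ) < nAnn m n := by nlinarith
    exact_mod_cast this
  · have h2 : 4 / frac m = 16 * (m : ℝ) ^ 4 := by
      unfold frac
      field_simp
      norm_num
    rw [h2]
    refine le_trans ?_ hMn
    have h3 : 16 * (m : ℝ) ^ 4 ≤ n := by rw [hnr]; nlinarith [sq_nonneg (L : ℝ), show (0:ℝ) ≤ (L:ℝ) by positivity]
    have h4 : (0 : ℝ) ≤ 16 * (m : ℝ) ^ 4 := by positivity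
    exact pow_le_pow_left₀ h4 h3 2
  · have h5 : Real.pi * (L : ℝ) ^ 2 ≤ 4 * (L : ℝ) ^ 2 := by nlinarith [sq_nonneg (L : ℝ)]
    have h6 : 4 * (L : ℝ) ^ 2 + 2 ≤ n := by
      rw [hnr]
      nlinarith [show (0:ℝ) ≤ (m:ℝ)^4 by positivity, show (0:ℝ) ≤ (L:ℝ) by positivity]
    linarith

end

end Pool.Agent.Helper40.PoolM
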