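import Pool.Agent.Helper40.PoolM.Jumps
import Pool.Agent.Helper40.PoolM.Geo

/-!
# The critical Pool model does not grow linearly
-/

set_option autoImplicit false
set_option linter.unusedSectionVars false

open MeasureTheory ProbabilityTheory Set Filter
open scoped ENNReal NNReal Topology

namespace Pool.Agent.Helper40.PoolM

/-- grouping an independent family into blocks -/
lemma iIndepFun_group {Ω ι : Type*} [MeasurableSpace Ω] {P : Measure Ω} [IsProbabilityMeasure P]
    {κ : ι → Type*} {E : Type*} [MeasurableSpace E] {X : (p : (i : ι) × κ i) → Ω → E}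
    (mX : ∀ p, Measurable (X p)) (h : iIndepFun X P) :
    iIndepFun (fun (i : ι) ω (j : κ i) => X ⟨i, j⟩ ω) P := by
  have hprob : ∀ i j, IsProbabilityMeasure (P.map (X ⟨i, j⟩)) :=
    fun i j => Measure.isProbabilityMeasure_map (mX _).aemeasurable
  have hprob' : ∀ p, IsProbabilityMeasure (P.map (X p)) :=
    fun p => Measure.isProbabilityMeasure_map (mX _).aemeasurable
  have hm : ∀ i, Measurable (fun ω (j : κ i) => X ⟨i, j⟩ ω) :=
    fun i => measurable_pi_lambda _ (fun j => mX _)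
  have h1 := (iIndepFun_iff_map_fun_eq_infinitePi_map mX).1 h
  rw [iIndepFun_iff_map_fun_eq_infinitePi_map hm]
  have h2 : (fun ω (i : ι) (j : κ i) => X ⟨i, j⟩ ω) =
      (MeasurableEquiv.piCurry (fun (i : ι) (_ : κ i) => E)) ∘ (fun ω p => X p ω) := by
    funext ω i j
    rfl
  rw [h2, ← Measure.map_map (MeasurableEquiv.measurable _) (measurable_pi_lambda _ mX), h1]
  have h3 := Measure.infinitePi_map_piCurry (X := fun (i : ι) (_ : κ i) => E)
    (fun (i : ι) (j : κ i) => P.map (X ⟨i, j⟩))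
  rw [h3]
  congr 1
  funext i
  have h4 : iIndepFun (fun (j : κ i) => X ⟨i, j⟩) P :=
    h.precomp (g := fun j => (⟨i, j⟩ : (i : ι) × κ i)) (fun a b hab => by
      simpa using hab)
  exact ((iIndepFun_iff_map_fun_eq_infinitePi_map (fun j => mX _)).1 h4).symm

/-- The mark space: waiting times and steps of one walk. -/
abbrev MarkSpace := ℕ → ℝ × Plane

/-- displacement up to time `t` -/
noncomputable def displacement (t : ℝ≥0) (w : MarkSpace) : Plane :=
  walk (fun n => (w n).1) (fun n => (w n).2) t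

lemma measurable_clock (t : ℝ≥0) :
    Measurable (fun w : MarkSpace => clock (fun n => (w n).1) t) := by
  have h1 : ∀ n : ℕ, Measurable (fun w : MarkSpace => ∑ k ∈ Finset.range (n + 1), (w k).1) := by
    intro n
    exact Finset.measurable_sum _ (fun k _ => measurable_fst.comp (measurable_pi_apply k))
  have h2 := measurable_cnt (Y := fun (n : ℕ) (w : MarkSpace) =>
    ∑ k ∈ Finset.range (n + 1), (w k).1) h1 (measurableSet_Iic (a := (t : ℝ)))
  exact h2

lemma measurable_displacement (t : ℝ≥0) : Measurable (displacement t) := by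
  have h1 : Measurable (fun p : ℕ × MarkSpace => ∑ k ∈ Finset.range p.1, (p.2 k).2) := by
    apply measurable_from_prod_countable_right
    intro n
    show Measurable (fun w : MarkSpace => ∑ k ∈ Finset.range n, (w k).2)
    exact Finset.measurable_sum _ (fun k _ => measurable_snd.comp (measurable_pi_apply k))
  exact h1.comp ((measurable_clock t).prodMk measurable_id)

section

variable {Ω : Type*} [MeasurableSpace Ω] {P : Measure Ω} [IsProbabilityMeasure P] {lam : ℝ≥0}
  {X : ℕ → Ω → Plane} {T : ℕ → ℕ → Ω → ℝ} {ν : ℕ → ℕ → Ω → Plane}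

/-- the law of the marks -/
noncomputable def markLaw : Measure MarkSpace :=
  Measure.infinitePi (fun _ : ℕ => (expMeasure 1).prod (stdGaussian Plane))

instance : IsProbabilityMeasure (expMeasure 1) := isProbabilityMeasure_expMeasure one_pos

instance : IsProbabilityMeasure markLaw := by
  unfold markLaw
  infer_instance

/-- the marks -/
def mark (T : ℕ → ℕ → Ω → ℝ) (ν : ℕ → ℕ → Ω → Plane) (i : ℕ) (ω : Ω) : MarkSpace :=
  fun n => (T i n ω, ν i n ω)

lemma marked (h : IsEnvironment P lam X T ν) :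
    Marked P (lam • (volume : Measure Plane)) markLaw X (mark T ν) := by
  have hTν : ∀ p : ℕ × ℕ, Measurable (fun ω => (T p.1 p.2 ω, ν p.1 p.2 ω)) :=
    fun p => (h.measurable_T _ _).prodMk (h.measurable_ν _ _)
  have hmark : ∀ i, Measurable (mark T ν i) :=
    fun i => measurable_pi_lambda _ (fun n => hTν (i, n))
  have hlaw1 : ∀ i n, P.map (fun ω => (T i n ω, ν i n ω)) =
      (expMeasure 1).prod (stdGaussian Plane) := by
    intro i n
    rw [(indepFun_iff_map_prod_eq_prod_map_map (h.measurable_T i n).aemeasurable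
      (h.measurable_ν i n).aemeasurable).mp (h.indep_T_ν i n), h.law_T, h.law_ν]
  refine ⟨h.measurable_X, hmark, h.poisson, ?_, ?_, ?_⟩
  · intro i
    have h1 : iIndepFun (fun n ω => (T i n ω, ν i n ω)) P :=
      h.indep_marks.precomp (g := fun n => (i, n)) (fun a b hab => by simpa using hab)
    have h2 := (iIndepFun_iff_map_fun_eq_infinitePi_map (fun n => hTν (i, n))).1 h1
    unfold markLaw
    rw [show P.map (mark T ν i) = P.map (fun ω n => (T i n ω, ν i n ω)) from rfl, h2]
    congr 1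
    funext n
    exact hlaw1 i n
  · have h1 : iIndepFun (fun (p : (_ : ℕ) × ℕ) ω => (T p.1 p.2 ω, ν p.1 p.2 ω)) P :=
      h.indep_marks.precomp (g := fun (p : (_ : ℕ) × ℕ) => (p.1, p.2)) (fun a b hab => by
        obtain ⟨a1, a2⟩ := a
        obtain ⟨b1, b2⟩ := b
        simp only [Prod.mk.injEq] at hab
        obtain ⟨h1, h2⟩ := hab
        subst h1; subst h2; rfl)
    exact iIndepFun_group (X := fun (p : (_ : ℕ) × ℕ) ω => (T p.1 p.2 ω, ν p.1 p.2 ω))
      (fun p => hTν (p.1, p.2)) h1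
  · have h1 : Measurable (fun (f : ℕ × ℕ → ℝ × Plane) (i : ℕ) (n : ℕ) => f (i, n)) :=
      measurable_pi_lambda _ (fun i => measurable_pi_lambda _ (fun n => measurable_pi_apply _))
    exact h.indep_X.comp measurable_id h1

/-- marked points -/
def pt (X : ℕ → Ω → Plane) (T : ℕ → ℕ → Ω → ℝ) (ν : ℕ → ℕ → Ω → Plane) (i : ℕ) (ω : Ω) :
    Plane × MarkSpace := (X i ω, mark T ν i ω)

/-- a sequence of scales -/
structure Scales (m : ℕ) where
  n : ℕ → ℕ
  L : ℕ → ℕ
  hn : ∀ k, k ≤ n k
  hm : ∀ k, m ≤ n k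
  hL : StrictMono L
  bound : ∀ k, ENNReal.ofReal (pBound m) ≤ Measure.pi (fun l : Fin (nAnn m (n k)) =>
    poissonMeasure (rate markLaw (displacement (n k)) (L k) (L (k + 1)) l)) (above (frac m))

lemma exists_scales {m : ℕ} (hm : 0 < m) : Nonempty (Scales m) := by
  have h := exists_scale (Q := markLaw) (D := fun n : ℕ => displacement n)
    (fun n => measurable_displacement n) hm
  choose f g h1 h2 h3 h4 using h
  set L : ℕ → ℕ := fun k => g^[k] 0 with hL
  have hLs : ∀ k, L (k + 1) = g (L k) := fun k => by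
    rw [hL]; exact Function.iterate_succ_apply' g k 0
  have hmono : StrictMono L := strictMono_nat_of_lt_succ (fun k => by rw [hLs]; exact h3 _)
  refine ⟨⟨fun k => f (L k), L, ?_, fun k => h1 _, hmono, ?_⟩⟩
  · intro k
    exact (hmono.id_le k).trans (h2 _)
  · intro k
    rw [hLs]
    exact h4 (L k)

variable (X T ν) in
/-- the event at scale `k` -/
def goodEvent {m : ℕ} (s : Scales m) (k : ℕ) : Set Ω :=
  {ω | (fun l : Fin (nAnn m (s.n k)) =>
    cnt (pt X T ν) (ASet (displacement (s.n k)) (s.L k) (s.L (k + 1)) l) ω) ∈ above (frac m)}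

lemma aset_disjoint {m : ℕ} (s : Scales m) {k k' l l' : ℕ} (h : ¬ (k = k' ∧ l = l')) :
    Disjoint (ASet (displacement (s.n k)) (s.L k) (s.L (k + 1)) l)
      (ASet (displacement (s.n k')) (s.L k') (s.L (k' + 1)) l') := by
  rw [Set.disjoint_left]
  rintro z ⟨h1, h2⟩ ⟨h3, h4⟩
  rcases lt_trichotomy k k' with h5 | h5 | h5
  · exact Set.disjoint_left.mp (ring_disjoint (s.hL.monotone (show k + 1 ≤ k' from h5))) h1 h3
  · subst h5
    exact Set.disjoint_left.mp (annulus_disjoint (fun h6 => h ⟨rfl, h6⟩)) h2 h4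
  · exact Set.disjoint_left.mp (ring_disjoint (s.hL.monotone (show k' + 1 ≤ k from h5))) h3 h1

lemma map_single (h : IsEnvironment P 1 X T ν) (t : ℝ≥0) {L L' : ℕ} {ι' : Type*} [Fintype ι']
    (lab : ι' → ℕ) (hlab : Function.Injective lab) :
    P.map (fun ω (c : ι') => cnt (pt X T ν) (ASet (displacement t) L L' (lab c)) ω) =
      Measure.pi (fun c => poissonMeasure (rate markLaw (displacement t) L L' (lab c))) := by
  have hM := marked h
  rw [one_smul] at hM
  have hB : (volume : Measure Plane) (Metric.closedBall (0 : Plane) L') ≠ ∞ :=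
    (measure_closedBall_lt_top).ne
  have := marking hM measurableSet_closedBall hB
    (fun c : ι' => ASet (displacement t) L L' (lab c))
    (fun c => measurableSet_ASet (measurable_displacement t) _ _ _)
    (fun c d hcd => by
      rw [Set.disjoint_left]
      rintro z ⟨_, h2⟩ ⟨_, h4⟩
      exact Set.disjoint_left.mp (annulus_disjoint (fun h6 => hcd (hlab h6))) h2 h4)
    (fun c z hz => mem_closedBall_zero_iff.mpr hz.1.2)
  exact this

lemma measurable_pt (h : IsEnvironment P lam X T ν) (i : ℕ) : Measurable (pt X T ν i) :=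
  (marked h).hY i |>.prodMk ((marked h).hM i)

lemma good_prob (h : IsEnvironment P 1 X T ν) {m : ℕ} (s : Scales m) (k : ℕ) :
    ENNReal.ofReal (pBound m) ≤ P (goodEvent X T ν s k) := by
  have h1 := map_single h (s.n k : ℝ≥0) (L := s.L k) (L' := s.L (k + 1))
    (fun l : Fin (nAnn m (s.n k)) => (l : ℕ)) Fin.val_injective
  have h2 := s.bound k
  rw [← h1, Measure.map_apply _ MeasurableSet.of_discrete] at h2
  · exact h2
  · exact measurable_pi_lambda _ (fun c => measurable_cnt (measurable_pt h)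
      (measurableSet_ASet (measurable_displacement _) _ _ _))

/-- all counts are independent -/
lemma indep_counts (h : IsEnvironment P 1 X T ν) {m : ℕ} (s : Scales m) :
    iIndepFun (fun (p : (k : ℕ) × Fin (nAnn m (s.n k))) ω =>
      cnt (pt X T ν) (ASet (displacement (s.n p.1)) (s.L p.1) (s.L (p.1 + 1)) p.2) ω) P := by
  have hM := marked h
  rw [one_smul] at hM
  rw [iIndepFun_iff_finset]
  intro S
  have hmeas : ∀ c : S, Measurable (fun ω => cnt (pt X T ν)
      (ASet (displacement (s.n c.1.1)) (s.L c.1.1) (s.L (c.1.1 + 1)) c.1.2) ω) :=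
    fun c => measurable_cnt (measurable_pt h)
      (measurableSet_ASet (measurable_displacement _) _ _ _)
  obtain ⟨R, hR⟩ : ∃ R : ℕ, ∀ c : S, s.L (c.1.1 + 1) ≤ R := by
    refine ⟨∑ c : S, s.L (c.1.1 + 1), fun c => ?_⟩
    exact Finset.single_le_sum (f := fun c : S => s.L (c.1.1 + 1)) (fun _ _ => Nat.zero_le _)
      (Finset.mem_univ c)
  have hB : (volume : Measure Plane) (Metric.closedBall (0 : Plane) R) ≠ ∞ :=
    (measure_closedBall_lt_top).ne
  have hjoint : P.map (fun ω (c : S) => cnt (pt X T ν)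
      (ASet (displacement (s.n c.1.1)) (s.L c.1.1) (s.L (c.1.1 + 1)) c.1.2) ω) =
      Measure.pi (fun c : S => poissonMeasure ((((volume : Measure Plane).prod markLaw)
        (ASet (displacement (s.n c.1.1)) (s.L c.1.1) (s.L (c.1.1 + 1)) c.1.2)).toNNReal)) :=
    marking hM measurableSet_closedBall hB
    (fun c : S => ASet (displacement (s.n c.1.1)) (s.L c.1.1) (s.L (c.1.1 + 1)) c.1.2)
    (fun c => measurableSet_ASet (measurable_displacement _) _ _ _)
    (fun c d hcd => by
      apply aset_disjoint s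
      rintro ⟨h1, h2⟩
      apply hcd
      apply Subtype.ext
      obtain ⟨⟨c1, c2⟩, hc⟩ := c
      obtain ⟨⟨d1, d2⟩, hd⟩ := d
      dsimp only at h1 h2 ⊢
      subst h1
      have h3 : c2 = d2 := Fin.ext h2
      rw [h3])
    (fun c z hz => by
      rw [mem_closedBall_zero_iff]
      refine hz.1.2.trans ?_
      exact_mod_cast hR c)
  have hsing : ∀ c : S, P.map (fun ω => cnt (pt X T ν)
      (ASet (displacement (s.n c.1.1)) (s.L c.1.1) (s.L (c.1.1 + 1)) c.1.2) ω) =
      poissonMeasure ((((volume : Measure Plane).prod markLaw)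
        (ASet (displacement (s.n c.1.1)) (s.L c.1.1) (s.L (c.1.1 + 1)) c.1.2)).toNNReal) := by
    intro c
    classical
    have h1 := congrArg (Measure.map (Function.eval c)) hjoint
    have h2 : Measurable (Function.eval c : (S → ℕ) → ℕ) := measurable_pi_apply c
    rw [Measure.map_map h2 (measurable_pi_lambda _ (fun c => hmeas c)),
      (measurePreserving_eval _ c).map_eq] at h1
    exact h1
  show iIndepFun (fun (c : S) ω => cnt (pt X T ν)
      (ASet (displacement (s.n c.1.1)) (s.L c.1.1) (s.L (c.1.1 + 1)) c.1.2) ω) P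
  rw [iIndepFun_iff_map_fun_eq_pi_map (fun c => (hmeas c).aemeasurable)]
  have hgoal : P.map (fun ω (c : S) => cnt (pt X T ν)
      (ASet (displacement (s.n c.1.1)) (s.L c.1.1) (s.L (c.1.1 + 1)) c.1.2) ω) =
      Measure.pi (fun c : S => P.map (fun ω => cnt (pt X T ν)
      (ASet (displacement (s.n c.1.1)) (s.L c.1.1) (s.L (c.1.1 + 1)) c.1.2) ω)) := by
    simp_rw [hsing]
    exact hjoint
  exact hgoal

lemma measurableSet_good (h : IsEnvironment P 1 X T ν) {m : ℕ} (s : Scales m) (k : ℕ) :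
    MeasurableSet (goodEvent X T ν s k) := by
  have h1 : Measurable (fun ω (l : Fin (nAnn m (s.n k))) =>
      cnt (pt X T ν) (ASet (displacement (s.n k)) (s.L k) (s.L (k + 1)) l) ω) :=
    measurable_pi_lambda _ (fun c => measurable_cnt (measurable_pt h)
      (measurableSet_ASet (measurable_displacement _) _ _ _))
  exact h1 MeasurableSet.of_discrete

lemma good_io (h : IsEnvironment P 1 X T ν) {m : ℕ} (s : Scales m) :
    ∀ᵐ ω ∂P, ∃ᶠ k in atTop, ω ∈ goodEvent X T ν s k := by
  have hgroup := iIndepFun_group (X := fun (p : (k : ℕ) × Fin (nAnn m (s.n k))) ω =>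
      cnt (pt X T ν) (ASet (displacement (s.n p.1)) (s.L p.1) (s.L (p.1 + 1)) p.2) ω)
    (fun p => measurable_cnt (measurable_pt h)
      (measurableSet_ASet (measurable_displacement _) _ _ _)) (indep_counts h s)
  have hlim : P (limsup (goodEvent X T ν s) atTop) = 1 := by
    apply measure_limsup_eq_one (measurableSet_good h s)
    · rw [iIndepSet_iff_meas_biInter (measurableSet_good h s)]
      intro S
      have := hgroup.measure_inter_preimage_eq_mul S
        (sets := fun k => (above (frac m) : Set (Fin (nAnn m (s.n k)) → ℕ)))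
        (fun _ _ => MeasurableSet.of_discrete)
      exact this
    · have h1 : ∀ k, ENNReal.ofReal (pBound m) ≤ P (goodEvent X T ν s k) := good_prob h s
      have h2 : ∑' _ : ℕ, ENNReal.ofReal (pBound m) ≤ ∑' k, P (goodEvent X T ν s k) :=
        ENNReal.tsum_le_tsum h1
      rw [ENNReal.tsum_const_eq_top_of_ne_zero] at h2
      · exact top_le_iff.mp h2
      · rw [Ne, ENNReal.ofReal_eq_zero, not_le]
        unfold pBound
        positivity
  have hae : ∀ᵐ ω ∂P, ω ∈ limsup (goodEvent X T ν s) atTop := by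
    rw [ae_iff]
    exact (prob_compl_eq_zero_iff (MeasurableSet.measurableSet_limsup
      (measurableSet_good h s))).mpr hlim
  filter_upwards [hae] with ω hω
  rwa [mem_limsup_iff_frequently_mem] at hω

/-- On the good event the radius is not in `[n/m, m n]`. -/
lemma good_radius {m : ℕ} (hm : 0 < m) (s : Scales m) (k : ℕ) {ω : Ω}
    (hnc : NoCommonJump (fun i s => X i ω + walk (fun n => T i n ω) (fun n => ν i n ω) s))
    (hg : ω ∈ goodEvent X T ν s k) :
    ¬ (((1 / m : ℝ≥0) * (s.n k : ℝ≥0) : ℝ≥0∞) ≤ radius X T ν ω (s.n k) ∧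
      radius X T ν ω (s.n k) ≤ ((m : ℝ≥0) * (s.n k : ℝ≥0) : ℝ≥0∞)) := by
  rintro ⟨h1, h2⟩
  set n := s.n k with hn
  set R := radius X T ν ω n with hR
  have hmb := free_count_le hnc (n : ℝ≥0)
  have hRtop : R ≠ ∞ := by
    refine (h2.trans_lt ?_).ne
    exact ENNReal.mul_lt_top ENNReal.coe_lt_top ENNReal.coe_lt_top
  set r : ℝ := R.toReal with hr
  have hr0 : 0 ≤ r := ENNReal.toReal_nonneg
  have hRr : R = ENNReal.ofReal r := (ENNReal.ofReal_toReal hRtop).symm
  have hmr : (1 : ℝ) ≤ m := by exact_mod_cast hm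
  have hmn : (m : ℝ) ≤ n := by exact_mod_cast s.hm k
  have hpi3 := Real.pi_gt_three
  have hr1 : (n : ℝ) / m ≤ r := by
    have h3 := (ENNReal.toReal_le_toReal (ENNReal.mul_ne_top ENNReal.coe_ne_top
      ENNReal.coe_ne_top) hRtop).mpr h1
    rw [ENNReal.toReal_mul] at h3
    simp only [ENNReal.coe_toReal, NNReal.coe_natCast, NNReal.coe_div, NNReal.coe_one] at h3
    calc (n : ℝ) / m = 1 / m * n := by ring
      _ ≤ r := h3
  have hr2 : r ≤ m * n := by
    have h3 := (ENNReal.toReal_le_toReal hRtop (ENNReal.mul_ne_top ENNReal.coe_ne_top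
      ENNReal.coe_ne_top)).mpr h2
    rw [ENNReal.toReal_mul] at h3
    simpa using h3
  -- the area index
  set j := ⌊Real.pi * r ^ 2⌋₊ with hj
  have hj1 : (j : ℝ) ≤ Real.pi * r ^ 2 := Nat.floor_le (by positivity)
  have hj2 : Real.pi * r ^ 2 < j + 1 := Nat.lt_floor_add_one _
  have hjM : j ≤ nAnn m n := by
    have h3 : Real.pi * r ^ 2 ≤ Real.pi * (m : ℝ) ^ 2 * (n : ℝ) ^ 2 := by
      have : r ^ 2 ≤ (m * n : ℝ) ^ 2 := pow_le_pow_left₀ hr0 hr2 2
      nlinarith [Real.pi_pos]
    have h4 : (j : ℝ) ≤ nAnn m n := (hj1.trans h3).trans (Nat.le_ceil _)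
    exact_mod_cast h4
  have hjα : frac m * nAnn m n ≤ j := by
    have h3 : (nAnn m n : ℝ) < Real.pi * (m : ℝ) ^ 2 * (n : ℝ) ^ 2 + 1 :=
      Nat.ceil_lt_add_one (by positivity)
    have h4 : (1 : ℝ) ≤ Real.pi * (m : ℝ) ^ 2 * (n : ℝ) ^ 2 := by
      have h5 : (1 : ℝ) ≤ (m : ℝ) ^ 2 := one_le_pow₀ hmr
      have h6 : (1 : ℝ) ≤ (n : ℝ) ^ 2 := one_le_pow₀ (hmr.trans hmn)
      have h7 : (1 : ℝ) ≤ (m : ℝ) ^ 2 * (n : ℝ) ^ 2 := by nlinarith
      nlinarith
    have h5 : frac m * nAnn m n ≤ Real.pi * (n : ℝ) ^ 2 / (2 * (m : ℝ) ^ 2) := by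
      have h6 : (nAnn m n : ℝ) ≤ 2 * (Real.pi * (m : ℝ) ^ 2 * (n : ℝ) ^ 2) := by linarith
      calc frac m * nAnn m n ≤ frac m * (2 * (Real.pi * (m : ℝ) ^ 2 * (n : ℝ) ^ 2)) := by
            apply mul_le_mul_of_nonneg_left h6
            unfold frac; positivity
        _ = Real.pi * (n : ℝ) ^ 2 / (2 * (m : ℝ) ^ 2) := by
            unfold frac
            field_simp
            ring
    have h7 : Real.pi * (n : ℝ) ^ 2 / (m : ℝ) ^ 2 ≤ Real.pi * r ^ 2 := by
      have : ((n : ℝ) / m) ^ 2 ≤ r ^ 2 := pow_le_pow_left₀ (by positivity) hr1 2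
      rw [div_pow] at this
      calc Real.pi * (n : ℝ) ^ 2 / (m : ℝ) ^ 2 = Real.pi * ((n : ℝ) ^ 2 / (m : ℝ) ^ 2) := by ring
        _ ≤ _ := by
            apply mul_le_mul_of_nonneg_left this Real.pi_pos.le
    have h8 : 1 ≤ Real.pi * (n : ℝ) ^ 2 / (2 * (m : ℝ) ^ 2) := by
      rw [le_div_iff₀ (by positivity)]
      have : (m : ℝ) ^ 2 ≤ (n : ℝ) ^ 2 := pow_le_pow_left₀ (by positivity) hmn 2
      nlinarith
    have h9 : Real.pi * (n : ℝ) ^ 2 / (m : ℝ) ^ 2 =
        2 * (Real.pi * (n : ℝ) ^ 2 / (2 * (m : ℝ) ^ 2)) := by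
      field_simp
    linarith
  have hcount := hg j hjα hjM
  -- compare with the number of free particles in the disc
  set F : Set ℕ := {i | X i ω + walk (fun n => T i n ω) (fun n => ν i n ω) (n : ℝ≥0) ∈
    disc R} with hF
  have hmb' : 1 + ((F.encard : ℕ∞) : ℝ≥0∞) ≤ ENNReal.ofReal (Real.pi * r ^ 2) := by
    refine hmb.trans (le_of_eq ?_)
    show ENNReal.ofReal Real.pi * R ^ 2 = _
    rw [hRr, ← ENNReal.ofReal_pow hr0, ← ENNReal.ofReal_mul Real.pi_pos.le]
  have hFfin : F.Finite := by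
    rw [← Set.encard_ne_top_iff]
    intro h3
    rw [h3, ENat.toENNReal_top, add_top] at hmb'
    exact absurd hmb' (not_le.mpr ENNReal.ofReal_lt_top)
  have hF1 : (F.ncard : ℝ) + 1 ≤ Real.pi * r ^ 2 := by
    rw [← hFfin.cast_ncard_eq] at hmb'
    have h3 := ENNReal.toReal_mono ENNReal.ofReal_ne_top hmb'
    rw [ENNReal.toReal_ofReal (by positivity), ENat.toENNReal_coe,
      ENNReal.toReal_add ENNReal.one_ne_top (ENNReal.natCast_ne_top _), ENNReal.toReal_one,
      ENNReal.toReal_natCast] at h3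
    linarith
  -- the counts in the annuli
  set A : ℕ → Set ℕ := fun l => pts (pt X T ν) (ASet (displacement n) (s.L k) (s.L (k + 1)) l) ω
    with hA
  have hAsub : ∀ l < j, A l ⊆ F := by
    intro l hl i hi
    have h3 : X i ω + displacement n (mark T ν i ω) ∈ annulus l := hi.2
    have h4 : Real.pi * ‖X i ω + displacement n (mark T ν i ω)‖ ^ 2 ≤ Real.pi * r ^ 2 := by
      have h5 : ((l : ℕ) : ℝ) + 1 ≤ j := by exact_mod_cast hl
      exact (h3.2.trans h5).trans hj1
    show ENNReal.ofReal ‖X i ω + walk (fun n => T i n ω) (fun n => ν i n ω) (n : ℝ≥0)‖ ≤ R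
    rw [hRr]
    apply ENNReal.ofReal_le_ofReal
    have h6 : ‖X i ω + displacement n (mark T ν i ω)‖ ^ 2 ≤ r ^ 2 :=
      le_of_mul_le_mul_left h4 Real.pi_pos
    exact le_of_sq_le_sq h6 hr0
  have hAdisj : ∀ l l', l ≠ l' → Disjoint (A l) (A l') := by
    intro l l' hll
    rw [Set.disjoint_left]
    intro i hi hi'
    exact Set.disjoint_left.mp (annulus_disjoint hll) hi.2 hi'.2
  have hsum : (∑ l : Fin (nAnn m n), if l.val < j then
      ((cnt (pt X T ν) (ASet (displacement n) (s.L k) (s.L (k + 1)) l) ω : ℕ) : ℝ) else 0) ≤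
      F.ncard := by
    classical
    have hfinA : ∀ l < j, (A l).Finite := fun l hl => hFfin.subset (hAsub l hl)
    have h3 : (∑ l : Fin (nAnn m n), if l.val < j then
        ((cnt (pt X T ν) (ASet (displacement n) (s.L k) (s.L (k + 1)) l) ω : ℕ) : ℝ) else 0) =
        ∑ l ∈ Finset.range j, (((A l).ncard : ℕ) : ℝ) := by
      refine (Fin.sum_univ_eq_sum_range (fun l => if l < j then (((A l).ncard : ℕ) : ℝ) else 0)
        (nAnn m n)).trans ?_
      rw [← Finset.sum_filter]
      apply Finset.sum_congr _ (fun _ _ => rfl)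
      ext l
      rw [Finset.mem_filter, Finset.mem_range, Finset.mem_range]
      omega
    rw [h3]
    have h4 : ∀ j' ≤ j, ∑ l ∈ Finset.range j', (A l).ncard ≤ F.ncard := by
      intro j' hj'
      have h5 : ∑ l ∈ Finset.range j', (A l).ncard =
          (⋃ l ∈ (Finset.range j'), A l).ncard := by
        clear h3 hcount
        induction j' with
        | zero => simp
        | succ j'' ih =>
          have hd1 : Disjoint (⋃ l ∈ (Finset.range j''), A l) (A j'') := by
            rw [Set.disjoint_iUnion₂_left]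
            intro l hl
            rw [Finset.mem_range] at hl
            exact hAdisj l j'' (by omega)
          have hf1 : (⋃ l ∈ (Finset.range j''), A l).Finite := by
            apply Set.Finite.biUnion (Finset.finite_toSet _)
            intro l hl
            rw [Finset.mem_coe, Finset.mem_range] at hl
            exact hfinA l (by omega)
          rw [Finset.sum_range_succ, ih (by omega), Finset.range_add_one,
            Finset.set_biUnion_insert, Set.union_comm,
            Set.ncard_union_eq hd1 hf1 (hfinA j'' (by omega))]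
      rw [h5]
      apply Set.ncard_le_ncard _ hFfin
      apply Set.iUnion₂_subset
      intro l hl
      rw [Finset.mem_range] at hl
      exact hAsub l (by omega)
    exact_mod_cast h4 j le_rfl
  linarith

/-- **Main theorem.** For the critical Pool model, almost surely, for all `0 < a`, `b` there are
arbitrarily large times `t` with `𝓔_t ∉ [a t, b t]`. -/
theorem no_linear_growth (h : IsEnvironment P 1 X T ν) :
    ∀ᵐ ω ∂P, ∀ a b : ℝ≥0, 0 < a → ∃ᶠ t : ℝ≥0 in atTop,
      ¬ ((a * t : ℝ≥0∞) ≤ radius X T ν ω t ∧ radius X T ν ω t ≤ (b * t : ℝ≥0∞)) := by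
  have hgood : ∀ᵐ ω ∂P, ∀ m : ℕ, ∃ᶠ k in atTop,
      ω ∈ goodEvent X T ν (exists_scales (m := m + 1) (by omega)).some k := by
    rw [ae_all_iff]
    intro m
    exact good_io h _
  filter_upwards [hgood, ae_noCommonJump h] with ω h2 h3 a b ha
  obtain ⟨m, hm⟩ : ∃ m : ℕ, 1 / a ≤ (m + 1 : ℕ) ∧ b ≤ (m + 1 : ℕ) := by
    obtain ⟨m, hm⟩ := exists_nat_ge (max (1 / a) b)
    refine ⟨m, ?_, ?_⟩
    · refine ((le_max_left _ _).trans hm).trans ?_
      exact_mod_cast Nat.le_succ m
    · refine ((le_max_right _ _).trans hm).trans ?_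
      exact_mod_cast Nat.le_succ m
  set s := (exists_scales (m := m + 1) (by omega)).some with hs
  have h4 : ∃ᶠ k in atTop, ¬ (((1 / (m + 1 : ℕ) : ℝ≥0) * (s.n k : ℝ≥0) : ℝ≥0∞) ≤
      radius X T ν ω (s.n k) ∧
      radius X T ν ω (s.n k) ≤ (((m + 1 : ℕ) : ℝ≥0) * (s.n k : ℝ≥0) : ℝ≥0∞)) := by
    refine (h2 m).mono (fun k hk => ?_)
    exact good_radius (by omega) s k h3 hk
  have h5 : Tendsto (fun k => (s.n k : ℝ≥0)) atTop atTop := by
    apply tendsto_atTop_mono (f := fun k : ℕ => (k : ℝ≥0))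
    · intro k
      exact_mod_cast s.hn k
    · exact tendsto_natCast_atTop_atTop
  refine h5.frequently (h4.mono (fun k hk hcon => hk ⟨?_, ?_⟩))
  · refine le_trans ?_ hcon.1
    have h6 : (1 / ((m + 1 : ℕ) : ℝ≥0)) ≤ a := by
      rw [div_le_iff₀ (by positivity)]
      have := hm.1
      rw [div_le_iff₀ ha] at this
      rwa [mul_comm] at this
    gcongr
  · refine hcon.2.trans ?_
    have := hm.2
    gcongr

/-- Almost surely `𝓔_t / t` does not converge to any `ξ ∈ (0, ∞)`. -/
theorem no_limit_of {ω : Ω} (hω : ∀ a b : ℝ≥0, 0 < a → ∃ᶠ t : ℝ≥0 in atTop,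
      ¬ ((a * t : ℝ≥0∞) ≤ radius X T ν ω t ∧ radius X T ν ω t ≤ (b * t : ℝ≥0∞)))
    (ξ : ℝ≥0) (hξ : 0 < ξ) :
    ¬ Tendsto (fun t : ℝ≥0 => radius X T ν ω t / t) atTop (𝓝 (ξ : ℝ≥0∞)) := by
  intro hlim
  have h1 : ((ξ / 2 : ℝ≥0) : ℝ≥0∞) < ξ := by
    exact_mod_cast NNReal.half_lt_self hξ.ne'
  have h2 : (ξ : ℝ≥0∞) < ((2 * ξ : ℝ≥0) : ℝ≥0∞) := by
    have : ξ < 2 * ξ := by
      rw [two_mul]; exact lt_add_of_pos_left ξ hξ
    exact_mod_cast this
  have h3 : ∀ᶠ t : ℝ≥0 in atTop, ((ξ / 2 : ℝ≥0) : ℝ≥0∞) < radius X T ν ω t / t :=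
    hlim.eventually (lt_mem_nhds h1)
  have h4 : ∀ᶠ t : ℝ≥0 in atTop, radius X T ν ω t / t < ((2 * ξ : ℝ≥0) : ℝ≥0∞) :=
    hlim.eventually (gt_mem_nhds h2)
  refine hω (ξ / 2) (2 * ξ) (by positivity) ?_
  filter_upwards [h3, h4, eventually_gt_atTop 0] with t h5 h6 h7
  rw [not_not]
  have ht0 : (t : ℝ≥0∞) ≠ 0 := by exact_mod_cast h7.ne'
  constructor
  · have := h5.le
    rwa [ENNReal.le_div_iff_mul_le (Or.inl ht0) (Or.inl ENNReal.coe_ne_top)] at this
  · have := h6.le
    rwa [ENNReal.div_le_iff_le_mul (Or.inl ht0) (Or.inl ENNReal.coe_ne_top)] at this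

end

end Pool.Agent.Helper40.PoolM
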