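import Pool.Agent.Helper40.PoolM.Det

/-!
# The Pool model: almost surely no two particles jump at the same time
-/

set_option autoImplicit false
set_option linter.unusedSectionVars false

open MeasureTheory ProbabilityTheory Set Filter
open scoped ENNReal NNReal

namespace Pool.Agent.Helper40.PoolM

/-- partial sums of waiting times -/
noncomputable def psum (T : ℕ → ℝ) (n : ℕ) : ℝ := ∑ k ∈ Finset.range n, T k

lemma psum_strictMono {T : ℕ → ℝ} (hT : ∀ n, 0 < T n) : StrictMono (psum T) := by
  apply strictMono_nat_of_lt_succ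
  intro n
  unfold psum
  rw [Finset.sum_range_succ]
  linarith [hT n]

lemma clock_eq {T : ℕ → ℝ} (hT : ∀ n, 0 < T n) (m : ℕ) (u : ℝ≥0) (h1 : psum T m ≤ u)
    (h2 : (u : ℝ) < psum T (m + 1)) : clock T u = m := by
  have hmono := psum_strictMono hT
  unfold clock
  have : {n : ℕ | ∑ k ∈ Finset.range (n + 1), T k ≤ (u : ℝ)} = Set.Iio m := by
    ext n
    rw [mem_ofPred_eq, mem_Iio]
    constructor
    · intro h
      by_contra hn
      have h3 : psum T (m + 1) ≤ psum T (n + 1) := hmono.monotone (by omega)
      have h4 : psum T (n + 1) ≤ u := h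
      linarith
    · intro h
      have h3 : psum T (n + 1) ≤ psum T m := hmono.monotone (by omega)
      have h4 : psum T (n + 1) ≤ u := h3.trans h1
      exact h4
  rw [this, Set.ncard_eq_toFinset_card', Set.toFinset_Iio, Nat.card_Iio]

lemma clock_const {T : ℕ → ℝ} (hT : ∀ n, 0 < T n) (hub : ∀ x : ℝ, ∃ n, x < psum T n)
    (t : ℝ≥0) (ht : 0 < t) (hne : ∀ n, psum T (n + 1) ≠ t) :
    ∃ s < t, ∀ u, s ≤ u → u ≤ t → clock T u = clock T t := by
  classical
  have hmono := psum_strictMono hT
  have hex := hub t
  set m' := Nat.find hex with hm'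
  have h1 : (t : ℝ) < psum T m' := Nat.find_spec hex
  have h0 : psum T 0 = 0 := by unfold psum; simp
  obtain ⟨m, hm⟩ : ∃ m, m' = m + 1 := by
    rcases Nat.eq_zero_or_pos m' with h | h
    · rw [h, h0] at h1
      exact absurd h1 (not_lt.mpr t.2)
    · exact ⟨m' - 1, by omega⟩
  rw [hm] at h1
  have h2 : psum T m ≤ t := by
    have := Nat.find_min hex (m := m) (by omega)
    exact not_lt.mp this
  have h3 : psum T m < t := by
    rcases h2.lt_or_eq with h | h
    · exact h
    · exfalso
      rcases Nat.eq_zero_or_pos m with hz | hz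
      · rw [hz, h0] at h
        have : (0 : ℝ) < t := ht
        linarith
      · obtain ⟨j, rfl⟩ : ∃ j, m = j + 1 := ⟨m - 1, by omega⟩
        exact hne j h
  have h4 : 0 ≤ psum T m := by
    rw [← h0]; exact hmono.monotone (Nat.zero_le _)
  refine ⟨⟨psum T m, h4⟩, ?_, ?_⟩
  · exact h3
  · intro u hu1 hu2
    rw [clock_eq hT m t h2 h1]
    apply clock_eq hT m u
    · exact hu1
    · refine lt_of_le_of_lt ?_ h1
      exact hu2

/-- Deterministic criterion. -/
lemma noCommonJump_of {X : ℕ → Plane} {T : ℕ → ℕ → ℝ} {ν : ℕ → ℕ → Plane}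
    (hT : ∀ i n, 0 < T i n) (hub : ∀ i (x : ℝ), ∃ n, x < psum (T i) n)
    (hne : ∀ i j, i ≠ j → ∀ n m, psum (T i) (n + 1) ≠ psum (T j) (m + 1)) :
    NoCommonJump (fun i s => X i + walk (T i) (ν i) s) := by
  intro t ht i j hij
  have key : ∀ l, (∀ n, psum (T l) (n + 1) ≠ t) →
      NoJump (fun i s => X i + walk (T i) (ν i) s) l t := by
    intro l hl
    obtain ⟨s, hs, h⟩ := clock_const (hT l) (hub l) t ht hl
    refine ⟨s, hs, fun u h1 h2 => ?_⟩
    show X l + walk (T l) (ν l) u = X l + walk (T l) (ν l) t
    unfold walk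
    rw [h u h1 h2]
  by_cases h : ∃ n, psum (T i) (n + 1) = t
  · right
    obtain ⟨n, hn⟩ := h
    apply key
    intro m hm
    exact hne i j hij n m (hn.trans hm.symm)
  · left
    push Not at h
    exact key i h

lemma expMeasure_Iic {x : ℝ} (hx : 0 ≤ x) :
    expMeasure 1 (Iic x) = ENNReal.ofReal (1 - Real.exp (-x)) := by
  have := isProbabilityMeasure_expMeasure (r := 1) one_pos
  have h1 := cdf_expMeasure_eq (r := 1) one_pos x
  rw [if_pos hx, cdf_eq_real, one_mul] at h1
  rw [← h1, ofReal_measureReal]

lemma expMeasure_singleton (x : ℝ) : expMeasure 1 {x} = 0 := by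
  unfold expMeasure gammaMeasure
  exact withDensity_absolutelyContinuous _ _ (measure_singleton x)

section

variable {Ω : Type*} [MeasurableSpace Ω] {P : Measure Ω} [IsProbabilityMeasure P] {lam : ℝ≥0}
  {X : ℕ → Ω → Plane} {T : ℕ → ℕ → Ω → ℝ} {ν : ℕ → ℕ → Ω → Plane}

lemma iIndep_T (h : IsEnvironment P lam X T ν) :
    iIndepFun (fun (p : ℕ × ℕ) ω => T p.1 p.2 ω) P :=
  h.indep_marks.comp (fun _ x => x.1) (fun _ => measurable_fst)

lemma ae_pos (h : IsEnvironment P lam X T ν) : ∀ᵐ ω ∂P, ∀ i n, 0 < T i n ω := by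
  rw [ae_all_iff]; intro i
  rw [ae_all_iff]; intro n
  have h1 : P.map (T i n) (Iic 0) = 0 := by
    rw [h.law_T, expMeasure_Iic le_rfl]; simp
  rw [Measure.map_apply (h.measurable_T i n) measurableSet_Iic] at h1
  rw [ae_iff]
  refine le_antisymm (le_trans (measure_mono ?_) h1.le) bot_le
  intro ω hω
  simpa using hω

lemma ae_unbounded (h : IsEnvironment P lam X T ν) :
    ∀ᵐ ω ∂P, ∀ i (x : ℝ), ∃ n, x < psum (fun k => T i k ω) n := by
  rw [ae_all_iff]; intro i
  have hlim : P (limsup (fun n => {ω | 1 < T i n ω}) atTop) = 1 := by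
    apply measure_limsup_eq_one
    · intro n
      exact measurableSet_lt measurable_const (h.measurable_T i n)
    · have h1 : iIndepFun (fun n ω => T i n ω) P :=
        (iIndep_T h).precomp (g := fun n => (i, n)) (fun a b hab => by simpa using hab)
      have h2 := h1.iIndep
      rw [iIndepSet_iff_meas_biInter (fun n => measurableSet_lt measurable_const (h.measurable_T i n))]
      intro s
      have := h1.measure_inter_preimage_eq_mul s (sets := fun _ => Ioi (1 : ℝ))
        (fun _ _ => measurableSet_Ioi)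
      exact this
    · have h3 : ∀ n, P {ω | 1 < T i n ω} = ENNReal.ofReal (Real.exp (-1)) := by
        intro n
        have h4 : P.map (T i n) (Iic 1) = ENNReal.ofReal (1 - Real.exp (-1)) := by
          rw [h.law_T, expMeasure_Iic zero_le_one]
        have h5 : P.map (T i n) (Ioi 1) = ENNReal.ofReal (Real.exp (-1)) := by
          have : IsProbabilityMeasure (P.map (T i n)) :=
            Measure.isProbabilityMeasure_map (h.measurable_T i n).aemeasurable
          rw [← compl_Iic, prob_compl_eq_one_sub measurableSet_Iic, h4,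
            ← ENNReal.ofReal_one, ← ENNReal.ofReal_sub]
          · congr 1; ring
          · have : Real.exp (-1) ≤ 1 := Real.exp_le_one_iff.mpr (by norm_num)
            linarith
        rw [Measure.map_apply (h.measurable_T i n) measurableSet_Ioi] at h5
        exact h5
      simp_rw [h3]
      rw [ENNReal.tsum_const_eq_top_of_ne_zero]
      rw [Ne, ENNReal.ofReal_eq_zero, not_le]
      exact Real.exp_pos _
  have hae : ∀ᵐ ω ∂P, ω ∈ limsup (fun n => {ω | 1 < T i n ω}) atTop := by
    rw [← prob_compl_eq_zero_iff] at hlim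
    · rw [ae_iff]
      exact hlim
    · exact MeasurableSet.measurableSet_limsup
        (fun n => measurableSet_lt measurable_const (h.measurable_T i n))
  filter_upwards [hae, ae_pos h] with ω h1 h2 x
  rw [mem_limsup_iff_frequently_mem] at h1
  have hmono := psum_strictMono (h2 i)
  -- the partial sums exceed every natural number
  have key : ∀ k : ℕ, ∃ n, (k : ℝ) ≤ psum (fun k => T i k ω) n := by
    intro k
    induction k with
    | zero => exact ⟨0, by unfold psum; simp⟩
    | succ k ih =>
      obtain ⟨n, hn⟩ := ih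
      obtain ⟨m, hm, hm'⟩ := (h1.and_eventually (eventually_ge_atTop n)).exists
      refine ⟨m + 1, ?_⟩
      have h3 : psum (fun k => T i k ω) n ≤ psum (fun k => T i k ω) m := hmono.monotone hm'
      have h4 : psum (fun k => T i k ω) (m + 1) = psum (fun k => T i k ω) m + T i m ω := by
        unfold psum; rw [Finset.sum_range_succ]
      have h5 : 1 < T i m ω := hm
      push_cast
      linarith
  obtain ⟨k, hk⟩ := exists_nat_gt x
  obtain ⟨n, hn⟩ := key k
  exact ⟨n, hk.trans_le hn⟩

lemma ae_ne (h : IsEnvironment P lam X T ν) :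
    ∀ᵐ ω ∂P, ∀ i j, i ≠ j → ∀ n m, psum (fun k => T i k ω) (n + 1) ≠
      psum (fun k => T j k ω) (m + 1) := by
  rw [ae_all_iff]; intro i
  rw [ae_all_iff]; intro j
  by_cases hij : i = j
  · exact ae_of_all _ (fun _ h' => absurd hij h')
  suffices hs : ∀ᵐ ω ∂P, ∀ n m, psum (fun k => T i k ω) (n + 1) ≠
      psum (fun k => T j k ω) (m + 1) by
    filter_upwards [hs] with ω hω _
    exact hω
  rw [ae_all_iff]; intro n
  rw [ae_all_iff]; intro m
  set Y : Ω → ℝ := fun ω => psum (fun k => T j k ω) (m + 1) -
    ∑ k ∈ Finset.range n, T i (k + 1) ω with hY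
  have hYm : Measurable Y := by
    apply Measurable.sub
    · exact Finset.measurable_sum _ (fun k _ => h.measurable_T j k)
    · exact Finset.measurable_sum _ (fun k _ => h.measurable_T i (k + 1))
  have hind : IndepFun (T i 0) Y P := by
    classical
    set A : Finset (ℕ × ℕ) := {(i, 0)} with hA
    set B : Finset (ℕ × ℕ) := ((Finset.range (m + 1)).image (fun k => (j, k))) ∪
      ((Finset.range n).image (fun k => (i, k + 1))) with hB
    have hdisj : Disjoint A B := by
      rw [hA, Finset.disjoint_singleton_left, hB]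
      simp only [Finset.mem_union, Finset.mem_image, Finset.mem_range, Prod.mk.injEq, not_or,
        not_exists, not_and]
      constructor
      · rintro k _ h1 _
        exact hij h1.symm
      · rintro k _ _ h1
        omega
    have h1 := (iIndep_T h).indepFun_finset A B hdisj (fun p => h.measurable_T p.1 p.2)
    have h2 : T i 0 = (fun f : (A → ℝ) => f ⟨(i, 0), by rw [hA]; simp⟩) ∘
        (fun ω (p : A) => T p.1.1 p.1.2 ω) := rfl
    have hmB1 : ∀ k, k ∈ Finset.range (m + 1) → (j, k) ∈ B := by
      intro k hk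
      rw [hB, Finset.mem_union]; left
      exact Finset.mem_image_of_mem _ hk
    have hmB2 : ∀ k, k ∈ Finset.range n → (i, k + 1) ∈ B := by
      intro k hk
      rw [hB, Finset.mem_union]; right
      exact Finset.mem_image.mpr ⟨k, hk, rfl⟩
    set g : (B → ℝ) → ℝ := fun f => ∑ k ∈ (Finset.range (m + 1)).attach, f ⟨(j, k.1), hmB1 k.1 k.2⟩ -
      ∑ k ∈ (Finset.range n).attach, f ⟨(i, k.1 + 1), hmB2 k.1 k.2⟩ with hg
    have hgm : Measurable g := by
      apply Measurable.sub
      · exact Finset.measurable_sum _ (fun k _ => measurable_pi_apply _)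
      · exact Finset.measurable_sum _ (fun k _ => measurable_pi_apply _)
    have h3 : Y = g ∘ (fun ω (p : B) => T p.1.1 p.1.2 ω) := by
      funext ω
      show psum (fun k => T j k ω) (m + 1) - ∑ k ∈ Finset.range n, T i (k + 1) ω =
        ∑ k ∈ (Finset.range (m + 1)).attach, T j k.1 ω -
        ∑ k ∈ (Finset.range n).attach, T i (k.1 + 1) ω
      rw [Finset.sum_attach (Finset.range (m + 1)) (fun k => T j k ω),
        Finset.sum_attach (Finset.range n) (fun k => T i (k + 1) ω)]
      rfl
    rw [h2, h3]
    exact h1.comp (measurable_pi_apply _) hgm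
  have hmap : P.map (fun ω => (T i 0 ω, Y ω)) = (P.map (T i 0)).prod (P.map Y) :=
    (indepFun_iff_map_prod_eq_prod_map_map (h.measurable_T i 0).aemeasurable
      hYm.aemeasurable).mp hind
  have hdiag : P.map (fun ω => (T i 0 ω, Y ω)) {p : ℝ × ℝ | p.1 = p.2} = 0 := by
    have hms : MeasurableSet {p : ℝ × ℝ | p.1 = p.2} := measurableSet_eq_fun measurable_fst measurable_snd
    have : IsProbabilityMeasure (P.map Y) := Measure.isProbabilityMeasure_map hYm.aemeasurable
    have : IsProbabilityMeasure (P.map (T i 0)) :=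
      Measure.isProbabilityMeasure_map (h.measurable_T i 0).aemeasurable
    rw [hmap, Measure.prod_apply_symm hms]
    have : ∀ y : ℝ, (P.map (T i 0)) ((fun x => (x, y)) ⁻¹' {p : ℝ × ℝ | p.1 = p.2}) = 0 := by
      intro y
      have h1 : ((fun x => (x, y)) ⁻¹' {p : ℝ × ℝ | p.1 = p.2}) = {y} := by
        ext x; simp
      rw [h1, h.law_T, expMeasure_singleton]
    rw [lintegral_congr this, lintegral_zero]
  rw [Measure.map_apply ((h.measurable_T i 0).prodMk hYm)
    (measurableSet_eq_fun measurable_fst measurable_snd)] at hdiag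
  rw [ae_iff]
  refine le_antisymm (le_trans (measure_mono ?_) hdiag.le) bot_le
  intro ω hω
  have hω' : psum (fun k => T i k ω) (n + 1) = psum (fun k => T j k ω) (m + 1) := by
    simpa using hω
  show T i 0 ω = Y ω
  have h1 : psum (fun k => T i k ω) (n + 1) = T i 0 ω + ∑ k ∈ Finset.range n, T i (k + 1) ω := by
    unfold psum
    rw [Finset.sum_range_succ', add_comm]
  rw [hY]
  show _ = psum (fun k => T j k ω) (m + 1) - ∑ k ∈ Finset.range n, T i (k + 1) ω
  linarith

/-- Almost surely no two particles jump at the same time. -/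
theorem ae_noCommonJump (h : IsEnvironment P lam X T ν) :
    ∀ᵐ ω ∂P, NoCommonJump
      (fun i s => X i ω + walk (fun n => T i n ω) (fun n => ν i n ω) s) := by
  filter_upwards [ae_pos h, ae_unbounded h, ae_ne h] with ω h1 h2 h3
  exact noCommonJump_of (X := fun i => X i ω) (T := fun i n => T i n ω)
    (ν := fun i n => ν i n ω) h1 h2 h3

end

end Pool.Agent.Helper40.PoolM
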