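import Pool.Agent.Helper40.PoolM.Defs

/-!
# Marking theorem for Poisson processes
-/

set_option autoImplicit false
set_option linter.unusedSectionVars false

open MeasureTheory ProbabilityTheory Set Filter
open scoped ENNReal NNReal Topology

namespace Pool.Agent.Helper40.PoolM

section basic

variable {Ω S : Type*} [MeasurableSpace Ω] [MeasurableSpace S]

/-- labels of the points in `A` -/
def pts (Y : ℕ → Ω → S) (A : Set S) (ω : Ω) : Set ℕ := {i | Y i ω ∈ A}

/-- number of points in `A` -/
noncomputable def cnt (Y : ℕ → Ω → S) (A : Set S) (ω : Ω) : ℕ := (pts Y A ω).ncard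

lemma encard_eq_tsum (s : Set ℕ) : ((s.encard : ℕ∞) : ℝ≥0∞) = ∑' i, s.indicator 1 i := by
  rw [← ENNReal.tsum_set_one, tsum_subtype s (fun _ => (1 : ℝ≥0∞))]
  rfl

lemma measurable_encard {Y : ℕ → Ω → S} (hY : ∀ i, Measurable (Y i)) {A : Set S}
    (hA : MeasurableSet A) : Measurable (fun ω => (((pts Y A ω).encard : ℕ∞) : ℝ≥0∞)) := by
  simp_rw [encard_eq_tsum]
  apply Measurable.tsum
  intro i
  have : (fun ω => (pts Y A ω).indicator (1 : ℕ → ℝ≥0∞) i) = (Y i ⁻¹' A).indicator 1 := by
    funext ω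
    by_cases h : Y i ω ∈ A
    · rw [Set.indicator_of_mem (show i ∈ pts Y A ω from h), Set.indicator_of_mem (show ω ∈ Y i ⁻¹' A from h)]
      rfl
    · rw [Set.indicator_of_notMem (show i ∉ pts Y A ω from h),
        Set.indicator_of_notMem (show ω ∉ Y i ⁻¹' A from h)]
  rw [this]
  exact measurable_one.indicator (hY i hA)

lemma ncard_eq_floor (s : Set ℕ) : s.ncard = ⌊((s.encard : ℕ∞) : ℝ≥0∞).toReal⌋₊ := by
  by_cases h : s.Finite
  · rw [← h.cast_ncard_eq]
    simp
  · rw [Set.Infinite.ncard h, Set.encard_eq_top (show s.Infinite from h)]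
    simp

lemma measurable_cnt {Y : ℕ → Ω → S} (hY : ∀ i, Measurable (Y i)) {A : Set S}
    (hA : MeasurableSet A) : Measurable (cnt Y A) := by
  have : cnt Y A = fun ω => ⌊(((pts Y A ω).encard : ℕ∞) : ℝ≥0∞).toReal⌋₊ := by
    funext ω
    exact ncard_eq_floor _
  rw [this]
  exact Nat.measurable_floor.comp (measurable_encard hY hA).ennreal_toReal

lemma measurableSet_encard_eq {Y : ℕ → Ω → S} (hY : ∀ i, Measurable (Y i)) {A : Set S}
    (hA : MeasurableSet A) (n : ℕ) : MeasurableSet {ω | (pts Y A ω).encard = n} := by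
  have : {ω | (pts Y A ω).encard = n} =
      (fun ω => (((pts Y A ω).encard : ℕ∞) : ℝ≥0∞)) ⁻¹' {(n : ℝ≥0∞)} := by
    ext ω
    simp only [mem_ofPred_eq, mem_preimage, mem_singleton_iff]
    rw [← ENat.toENNReal_coe, ENat.toENNReal_inj]
  rw [this]
  exact measurable_encard hY hA (measurableSet_singleton _)

variable {P : Measure Ω} [IsProbabilityMeasure P] {Λ : Measure S} {Y : ℕ → Ω → S}

lemma poisson_pmf (r : ℝ≥0) (n : ℕ) :
    poissonMeasure r {n} = ENNReal.ofReal (Real.exp (-(r : ℝ)) * (r : ℝ) ^ n / n.factorial) :=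
  poissonMeasure_singleton r n

lemma fin_ae (hY : ∀ i, Measurable (Y i)) (hP : IsPoissonProcess P Y Λ) {B : Set S}
    (hB : MeasurableSet B) (hfin : Λ B ≠ ∞) : ∀ᵐ ω ∂P, (pts Y B ω).Finite := by
  have h1 : ∀ n : ℕ, P {ω | (pts Y B ω).encard = n} = poissonMeasure (Λ B).toNNReal {n} := by
    intro n
    have := hP 1 (fun _ => B) (fun _ => hB) (fun c d hcd => absurd (Subsingleton.elim c d) hcd)
      (fun _ => hfin) (fun _ => n)
    simp only [forall_const, Finset.univ_unique, Finset.prod_const, Finset.card_singleton,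
      pow_one] at this
    rw [poisson_pmf]
    exact this
  have h2 : P (⋃ n : ℕ, {ω | (pts Y B ω).encard = n}) = 1 := by
    rw [measure_iUnion]
    · simp_rw [h1]
      have h3 : poissonMeasure (Λ B).toNNReal (⋃ n : ℕ, {n}) = 1 := by
        rw [Set.iUnion_of_singleton]; exact measure_univ
      rw [measure_iUnion] at h3
      · exact h3
      · intro a b hab
        exact Set.disjoint_singleton.mpr hab
      · intro n; exact measurableSet_singleton n
    · intro a b hab
      rw [Function.onFun, Set.disjoint_left]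
      intro ω h3 h4
      rw [mem_ofPred_eq] at h3 h4
      rw [h3] at h4
      exact hab (by exact_mod_cast h4)
    · intro n; exact measurableSet_encard_eq hY hB n
  have h3 : ∀ᵐ ω ∂P, ω ∈ ⋃ n : ℕ, {ω | (pts Y B ω).encard = n} := by
    rw [ae_iff]
    have hm : MeasurableSet (⋃ n : ℕ, {ω | (pts Y B ω).encard = n}) :=
      MeasurableSet.iUnion (fun n => measurableSet_encard_eq hY hB n)
    exact (prob_compl_eq_zero_iff hm).mpr h2
  filter_upwards [h3] with ω hω
  rw [mem_iUnion] at hω
  obtain ⟨n, hn⟩ := hω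
  exact Set.finite_of_encard_eq_coe hn

theorem map_cnt {κ : Type*} [Fintype κ] (hY : ∀ i, Measurable (Y i))
    (hP : IsPoissonProcess P Y Λ) (A : κ → Set S) (hA : ∀ c, MeasurableSet (A c))
    (hd : ∀ c d, c ≠ d → Disjoint (A c) (A d)) (hfin : ∀ c, Λ (A c) ≠ ∞) :
    P.map (fun ω c => cnt Y (A c) ω) =
      Measure.pi (fun c => poissonMeasure (Λ (A c)).toNNReal) := by
  classical
  have hm : Measurable (fun ω (c : κ) => cnt Y (A c) ω) :=
    measurable_pi_lambda _ (fun c => measurable_cnt hY (hA c))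
  apply Measure.ext_of_singleton
  intro n
  rw [Measure.pi_singleton, Measure.map_apply hm (measurableSet_singleton n)]
  have h1 : ∀ᵐ ω ∂P, ∀ c, (pts Y (A c) ω).Finite := by
    rw [ae_all_iff]
    intro c
    exact fin_ae hY hP (hA c) (hfin c)
  have h2 : P ((fun ω (c : κ) => cnt Y (A c) ω) ⁻¹' {n}) =
      P {ω | ∀ c, (pts Y (A c) ω).encard = n c} := by
    apply measure_congr
    filter_upwards [h1] with ω hω
    apply propext
    constructor
    · intro h c
      have h3 : cnt Y (A c) ω = n c := congr_fun h c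
      rw [← (hω c).cast_ncard_eq]
      unfold cnt at h3
      rw [h3]
    · intro h
      show (fun c => cnt Y (A c) ω) = n
      funext c
      have h3 := h c
      rw [← (hω c).cast_ncard_eq] at h3
      exact_mod_cast h3
  rw [h2]
  let e := Fintype.equivFin κ
  have h3 := hP (Fintype.card κ) (fun j => A (e.symm j)) (fun j => hA _)
    (fun c d hcd => hd _ _ (fun h => hcd (e.symm.injective h))) (fun j => hfin _)
    (fun j => n (e.symm j))
  have h4 : {ω | ∀ c, (pts Y (A c) ω).encard = n c} =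
      {ω | ∀ j, ({i | Y i ω ∈ A (e.symm j)} : Set ℕ).encard = n (e.symm j)} := by
    ext ω
    constructor
    · intro h j; exact h _
    · intro h c
      have := h (e c)
      rw [e.symm_apply_apply] at this
      exact this
  rw [h4, h3, ← Equiv.prod_comp e.symm]
  apply Finset.prod_congr rfl
  intro j _
  rw [poisson_pmf]
  rfl

lemma integral_pow_poisson (r : ℝ≥0) (v : ℂ) :
    ∫ n, v ^ n ∂(poissonMeasure r) = Complex.exp (r * (v - 1)) := by
  rw [integral_poissonMeasure]
  calc ∑' n : ℕ, (Real.exp (-(r : ℝ)) * (r : ℝ) ^ n / n.factorial) • v ^ n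
      = ∑' n : ℕ, (Real.exp (-(r : ℝ)) : ℂ) * ((r * v) ^ n / n.factorial) := by
        congr with n
        rw [Complex.real_smul]
        push_cast
        rw [mul_pow]
        ring
    _ = (Real.exp (-(r : ℝ)) : ℂ) * ∑' n : ℕ, ((r * v) ^ n / n.factorial) := tsum_mul_left
    _ = (Real.exp (-(r : ℝ)) : ℂ) * Complex.exp (r * v) := by
        rw [(NormedSpace.expSeries_div_hasSum_exp ((r : ℂ) * v)).tsum_eq, Complex.exp_eq_exp_ℂ]
    _ = _ := by
        rw [Complex.ofReal_exp, ← Complex.exp_add]
        push_cast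
        ring_nf

lemma simple_functional {κ : Type*} [Fintype κ] (hY : ∀ i, Measurable (Y i))
    (hP : IsPoissonProcess P Y Λ) (A : κ → Set S) (hA : ∀ c, MeasurableSet (A c))
    (hd : ∀ c d, c ≠ d → Disjoint (A c) (A d)) (hfin : ∀ c, Λ (A c) ≠ ∞) (v : κ → ℂ) :
    ∫ ω, ∏ c, v c ^ cnt Y (A c) ω ∂P =
      Complex.exp (∑ c, ((Λ (A c)).toReal : ℂ) * (v c - 1)) := by
  have hm : Measurable (fun ω (c : κ) => cnt Y (A c) ω) :=
    measurable_pi_lambda _ (fun c => measurable_cnt hY (hA c))
  have h1 : ∫ ω, ∏ c, v c ^ cnt Y (A c) ω ∂P =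
      ∫ n : κ → ℕ, ∏ c, v c ^ n c ∂(P.map (fun ω c => cnt Y (A c) ω)) := by
    rw [integral_map hm.aemeasurable]
    exact AEStronglyMeasurable.of_discrete
  rw [h1, map_cnt hY hP A hA hd hfin,
    integral_fintype_prod_eq_prod (fun c n => v c ^ n), Complex.exp_sum]
  apply Finset.prod_congr rfl
  intro c _
  rw [integral_pow_poisson]
  rfl

/-- finite product over the points in `B` -/
lemma finprod_eq {Y : ℕ → Ω → S} {B : Set S} {ω : Ω} (hfin : (pts Y B ω).Finite) {h : S → ℂ}
    (h1 : ∀ x ∉ B, h x = 1) : ∏ᶠ i, h (Y i ω) = ∏ i ∈ hfin.toFinset, h (Y i ω) := by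
  apply finprod_eq_prod_of_mulSupport_subset
  intro i hi
  rw [Function.mem_mulSupport] at hi
  rw [Finite.coe_toFinset]
  by_contra hni
  exact hi (h1 _ hni)

lemma tendsto_prod {Y : ℕ → Ω → S} {B : Set S} {ω : Ω} (hfin : (pts Y B ω).Finite) {h : S → ℂ}
    (h1 : ∀ x ∉ B, h x = 1) :
    Tendsto (fun n => ∏ i ∈ Finset.range n, h (Y i ω)) atTop (𝓝 (∏ᶠ i, h (Y i ω))) := by
  obtain ⟨N, hN⟩ := hfin.bddAbove
  apply tendsto_const_nhds.congr'
  filter_upwards [eventually_gt_atTop N] with n hn
  apply finprod_eq_prod_of_mulSupport_subset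
  intro i hi
  rw [Function.mem_mulSupport] at hi
  rw [Finset.coe_range, mem_Iio]
  have h2 : i ∈ pts Y B ω := by
    by_contra hni
    exact hi (h1 _ hni)
  exact lt_of_le_of_lt (hN h2) hn

lemma norm_prod_le {ι' : Type*} (s : Finset ι') (f : ι' → ℂ) (hf : ∀ i, ‖f i‖ ≤ 1) :
    ‖∏ i ∈ s, f i‖ ≤ 1 := by
  rw [norm_prod]
  exact Finset.prod_le_one (fun i _ => norm_nonneg _) (fun i _ => hf i)

lemma norm_finprod_le (f : ℕ → ℂ) (hf : ∀ i, ‖f i‖ ≤ 1) : ‖∏ᶠ i, f i‖ ≤ 1 := by
  classical
  rw [finprod_def]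
  split_ifs with h
  · exact norm_prod_le _ _ hf
  · simp

lemma aestronglyMeasurable_finprod (hY : ∀ i, Measurable (Y i)) {B : Set S}
    (hfin : ∀ᵐ ω ∂P, (pts Y B ω).Finite) {h : S → ℂ} (hm : Measurable h)
    (h1 : ∀ x ∉ B, h x = 1) : AEStronglyMeasurable (fun ω => ∏ᶠ i, h (Y i ω)) P := by
  apply aestronglyMeasurable_of_tendsto_ae atTop
    (f := fun n ω => ∏ i ∈ Finset.range n, h (Y i ω))
  · intro n
    exact (Finset.measurable_prod _ (fun i _ => hm.comp (hY i))).aestronglyMeasurable
  · filter_upwards [hfin] with ω hω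
    exact tendsto_prod hω h1

lemma tendsto_integral_prod (hY : ∀ i, Measurable (Y i)) {B : Set S}
    (hfin : ∀ᵐ ω ∂P, (pts Y B ω).Finite) {h : S → ℂ} (hm : Measurable h)
    (hn : ∀ x, ‖h x‖ ≤ 1) (h1 : ∀ x ∉ B, h x = 1) :
    Tendsto (fun n => ∫ ω, ∏ i ∈ Finset.range n, h (Y i ω) ∂P) atTop
      (𝓝 (∫ ω, ∏ᶠ i, h (Y i ω) ∂P)) := by
  apply tendsto_integral_of_dominated_convergence (fun _ => (1 : ℝ))
  · intro n
    exact (Finset.measurable_prod _ (fun i _ => hm.comp (hY i))).aestronglyMeasurable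
  · exact integrable_const _
  · intro n
    exact ae_of_all _ (fun ω => norm_prod_le _ _ (fun i => hn _))
  · filter_upwards [hfin] with ω hω
    exact tendsto_prod hω h1

/-- The functional of a Poisson process. -/
theorem functional (hY : ∀ i, Measurable (Y i)) (hP : IsPoissonProcess P Y Λ) {B : Set S}
    (hB : MeasurableSet B) (hBfin : Λ B ≠ ∞) {h : S → ℂ} (hm : Measurable h)
    (hn : ∀ x, ‖h x‖ ≤ 1) (h1 : ∀ x ∉ B, h x = 1) :
    ∫ ω, ∏ᶠ i, h (Y i ω) ∂P = Complex.exp (∫ x in B, (h x - 1) ∂Λ) := by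
  classical
  have hfin := fin_ae hY hP hB hBfin
  set D : Set ℂ := Metric.closedBall 0 1 with hD
  have h1D : (1 : ℂ) ∈ D := by rw [hD]; simp
  set s : ℕ → SimpleFunc S ℂ := fun m => SimpleFunc.approxOn h hm D 1 h1D m with hs
  have hsD : ∀ m x, ‖s m x‖ ≤ 1 := by
    intro m x
    exact mem_closedBall_zero_iff.mp (SimpleFunc.approxOn_mem hm h1D m x)
  have hst : ∀ x, Tendsto (fun m => s m x) atTop (𝓝 (h x)) := by
    intro x
    apply SimpleFunc.tendsto_approxOn hm h1D
    apply subset_closure
    exact mem_closedBall_zero_iff.mpr (hn x)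
  set g : ℕ → S → ℂ := fun m x => if x ∈ B then s m x else 1 with hg
  have hgm : ∀ m, Measurable (g m) := fun m =>
    Measurable.ite hB (s m).measurable measurable_const
  have hgn : ∀ m x, ‖g m x‖ ≤ 1 := by
    intro m x
    rw [hg]; dsimp only
    split_ifs
    · exact hsD m x
    · simp
  have hg1 : ∀ m, ∀ x ∉ B, g m x = 1 := by
    intro m x hx
    rw [hg]; dsimp only
    rw [if_neg hx]
  have hgt : ∀ x, Tendsto (fun m => g m x) atTop (𝓝 (h x)) := by
    intro x
    by_cases hx : x ∈ B
    · have : (fun m => g m x) = fun m => s m x := by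
        funext m; rw [hg]; dsimp only; rw [if_pos hx]
      rw [this]; exact hst x
    · have : (fun m => g m x) = fun m => 1 := by
        funext m; exact hg1 m x hx
      rw [this, h1 x hx]
      exact tendsto_const_nhds
  -- the formula for the simple functions
  have hsimple : ∀ m, ∫ ω, ∏ᶠ i, g m (Y i ω) ∂P = Complex.exp (∫ x in B, (g m x - 1) ∂Λ) := by
    intro m
    set κ := {v : ℂ // v ∈ (s m).range} with hκ
    set A : κ → Set S := fun v => B ∩ (s m) ⁻¹' {v.1} with hAdef
    have hA : ∀ c, MeasurableSet (A c) := fun c => hB.inter ((s m).measurableSet_preimage _)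
    have hd : ∀ c d, c ≠ d → Disjoint (A c) (A d) := by
      intro c d hcd
      rw [Set.disjoint_left]
      rintro x ⟨_, h2⟩ ⟨_, h3⟩
      apply hcd
      apply Subtype.ext
      rw [mem_preimage, mem_singleton_iff] at h2 h3
      rw [← h2, ← h3]
    have hAfin : ∀ c, Λ (A c) ≠ ∞ := fun c =>
      ((measure_mono inter_subset_left).trans_lt (lt_top_iff_ne_top.mpr hBfin)).ne
    have h2 := simple_functional hY hP A hA hd hAfin (fun c => c.1)
    have h3 : ∫ ω, ∏ᶠ i, g m (Y i ω) ∂P = ∫ ω, ∏ c : κ, c.1 ^ cnt Y (A c) ω ∂P := by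
      apply integral_congr_ae
      filter_upwards [hfin] with ω hω
      rw [finprod_eq hω (hg1 m)]
      have h4 : ∀ c : κ, cnt Y (A c) ω =
          (hω.toFinset.filter (fun i => s m (Y i ω) = c.1)).card := by
        intro c
        unfold cnt
        rw [← Set.ncard_coe_finset]
        congr 1
        ext i
        simp only [pts, hAdef, mem_ofPred_eq, mem_inter_iff, mem_preimage, mem_singleton_iff,
          Finset.coe_filter, Finite.mem_toFinset]
      simp_rw [h4]
      have h5 : ∀ i ∈ hω.toFinset, g m (Y i ω) =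
          ∏ c : κ, if s m (Y i ω) = c.1 then c.1 else 1 := by
        intro i hi
        rw [Finite.mem_toFinset] at hi
        have hi' : Y i ω ∈ B := hi
        have h6 : g m (Y i ω) = s m (Y i ω) := by rw [hg]; dsimp only; rw [if_pos hi']
        rw [h6, Finset.prod_eq_single (⟨s m (Y i ω), SimpleFunc.mem_range_self _ _⟩ : κ)]
        · rw [if_pos rfl]
        · intro c _ hc
          rw [if_neg]
          intro h7
          exact hc (Subtype.ext h7.symm)
        · intro h7; exact absurd (Finset.mem_univ _) h7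
      rw [Finset.prod_congr rfl h5, Finset.prod_comm]
      apply Finset.prod_congr rfl
      intro c _
      rw [Finset.prod_ite, Finset.prod_const, Finset.prod_const_one, mul_one]
    have h4 : ∫ x in B, (g m x - 1) ∂Λ = ∑ c : κ, ((Λ (A c)).toReal : ℂ) * (c.1 - 1) := by
      have h5 : ∫ x in B, (g m x - 1) ∂Λ =
          ∫ x in B, ∑ c : κ, (A c).indicator (fun _ => (c.1 - 1 : ℂ)) x ∂Λ := by
        apply setIntegral_congr_fun hB
        intro x hx
        have h6 : g m x = s m x := by rw [hg]; dsimp only; rw [if_pos hx]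
        dsimp only
        rw [h6, Finset.sum_eq_single (⟨s m x, SimpleFunc.mem_range_self _ _⟩ : κ)]
        · rw [Set.indicator_of_mem]
          exact ⟨hx, rfl⟩
        · intro c _ hc
          rw [Set.indicator_of_notMem]
          rintro ⟨_, h7⟩
          exact hc (Subtype.ext h7.symm)
        · intro h7; exact absurd (Finset.mem_univ _) h7
      rw [h5, integral_finsetSum]
      · apply Finset.sum_congr rfl
        intro c _
        rw [integral_indicator_const _ (hA c), Complex.real_smul]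
        congr 2
        rw [measureReal_def, Measure.restrict_apply (hA c), inter_eq_left.mpr]
        exact inter_subset_left
      · intro c _
        apply Integrable.indicator _ (hA c)
        have : IsFiniteMeasure (Λ.restrict B) := ⟨by
          rw [Measure.restrict_apply_univ]; exact lt_top_iff_ne_top.mpr hBfin⟩
        exact integrable_const _
    rw [h3, h2, h4]
  -- limits
  have hlim1 : Tendsto (fun m => ∫ ω, ∏ᶠ i, g m (Y i ω) ∂P) atTop
      (𝓝 (∫ ω, ∏ᶠ i, h (Y i ω) ∂P)) := by
    apply tendsto_integral_of_dominated_convergence (fun _ => (1 : ℝ))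
    · intro m
      exact aestronglyMeasurable_finprod hY hfin (hgm m) (hg1 m)
    · exact integrable_const _
    · intro m
      exact ae_of_all _ (fun ω => norm_finprod_le _ (fun i => hgn m _))
    · filter_upwards [hfin] with ω hω
      rw [finprod_eq hω h1]
      have : (fun m => ∏ᶠ i, g m (Y i ω)) = fun m => ∏ i ∈ hω.toFinset, g m (Y i ω) := by
        funext m; exact finprod_eq hω (hg1 m)
      rw [this]
      exact tendsto_finsetProd _ (fun i _ => hgt _)
  have hlim2 : Tendsto (fun m => ∫ x in B, (g m x - 1) ∂Λ) atTop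
      (𝓝 (∫ x in B, (h x - 1) ∂Λ)) := by
    have : IsFiniteMeasure (Λ.restrict B) := ⟨by
      rw [Measure.restrict_apply_univ]; exact lt_top_iff_ne_top.mpr hBfin⟩
    apply tendsto_integral_of_dominated_convergence (fun _ => (2 : ℝ))
    · intro m
      exact ((hgm m).sub measurable_const).aestronglyMeasurable
    · exact integrable_const _
    · intro m
      apply ae_of_all
      intro x
      calc ‖g m x - 1‖ ≤ ‖g m x‖ + ‖(1 : ℂ)‖ := norm_sub_le _ _
        _ ≤ 1 + 1 := by
            gcongr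
            · exact hgn m x
            · simp
        _ = 2 := by norm_num
    · apply ae_of_all
      intro x
      exact (hgt x).sub_const 1
  have hlim3 := (Complex.continuous_exp.tendsto _).comp hlim2
  refine tendsto_nhds_unique hlim1 ?_
  refine hlim3.congr (fun m => ?_)
  exact (hsimple m).symm

end basic

end Pool.Agent.Helper40.PoolM
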