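import Pool.Agent.Helper40.PoolM.Mark

/-!
# Marking theorem for Poisson processes, second part
-/

set_option autoImplicit false
set_option linter.unusedSectionVars false

open MeasureTheory ProbabilityTheory Set Filter
open scoped ENNReal NNReal Topology

namespace Pool.Agent.Helper40.PoolM

variable {Ω S W : Type*} [MeasurableSpace Ω] [MeasurableSpace S] [MeasurableSpace W]

/-- A Poisson process with independent marks. -/
structure Marked (P : Measure Ω) (Λ : Measure S) (Q : Measure W) (Y : ℕ → Ω → S)
    (M : ℕ → Ω → W) : Prop where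
  hY : ∀ i, Measurable (Y i)
  hM : ∀ i, Measurable (M i)
  hP : IsPoissonProcess P Y Λ
  law : ∀ i, P.map (M i) = Q
  indepM : iIndepFun M P
  indep : IndepFun (fun ω i => Y i ω) (fun ω i => M i ω) P

variable {P : Measure Ω} [IsProbabilityMeasure P] {Λ : Measure S} [SFinite Λ] {Q : Measure W}
  [IsProbabilityMeasure Q] {Y : ℕ → Ω → S} {M : ℕ → Ω → W}

lemma marks_step (h : Marked P Λ Q Y M) {F : S × W → ℂ} (hF : Measurable F)
    (hn : ∀ z, ‖F z‖ ≤ 1) (n : ℕ) :
    ∫ ω, ∏ i ∈ Finset.range n, F (Y i ω, M i ω) ∂P =
      ∫ ω, ∏ i ∈ Finset.range n, (∫ w, F (Y i ω, w) ∂Q) ∂P := by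
  have hYm : Measurable (fun ω (i : Fin n) => Y i ω) := measurable_pi_lambda _ (fun i => h.hY i)
  have hMm : Measurable (fun ω (i : Fin n) => M i ω) := measurable_pi_lambda _ (fun i => h.hM i)
  have hind : IndepFun (fun ω (i : Fin n) => Y i ω) (fun ω (i : Fin n) => M i ω) P := by
    have h1 : Measurable (fun (f : ℕ → S) (i : Fin n) => f i) :=
      measurable_pi_lambda _ (fun i => measurable_pi_apply _)
    have h2 : Measurable (fun (f : ℕ → W) (i : Fin n) => f i) :=
      measurable_pi_lambda _ (fun i => measurable_pi_apply _)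
    exact h.indep.comp h1 h2
  have hmap : P.map (fun ω => ((fun (i : Fin n) => Y i ω), (fun (i : Fin n) => M i ω))) =
      (P.map (fun ω (i : Fin n) => Y i ω)).prod (P.map (fun ω (i : Fin n) => M i ω)) :=
    (indepFun_iff_map_prod_eq_prod_map_map hYm.aemeasurable hMm.aemeasurable).mp hind
  have hpi : P.map (fun ω (i : Fin n) => M i ω) = Measure.pi (fun _ : Fin n => Q) := by
    have h1 : iIndepFun (fun (i : Fin n) => M i) P :=
      h.indepM.precomp (g := fun i : Fin n => (i : ℕ)) Fin.val_injective
    have h2 := (iIndepFun_iff_map_fun_eq_pi_map (f := fun (i : Fin n) => M i)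
      (fun i => (h.hM i).aemeasurable)).mp h1
    rw [h2]
    congr 1
    funext i
    exact h.law i
  have hYprob : IsProbabilityMeasure (P.map (fun ω (i : Fin n) => Y i ω)) :=
    Measure.isProbabilityMeasure_map hYm.aemeasurable
  have hGm : Measurable (fun z : (Fin n → S) × (Fin n → W) => ∏ i, F (z.1 i, z.2 i)) := by
    apply Finset.measurable_prod
    intro i _
    exact hF.comp (((measurable_pi_apply i).comp measurable_fst).prodMk
      ((measurable_pi_apply i).comp measurable_snd))
  calc ∫ ω, ∏ i ∈ Finset.range n, F (Y i ω, M i ω) ∂P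
      = ∫ z, ∏ i, F (z.1 i, z.2 i) ∂(P.map (fun ω => ((fun (i : Fin n) => Y i ω),
          (fun (i : Fin n) => M i ω)))) := by
        rw [integral_map (hYm.prodMk hMm).aemeasurable hGm.aestronglyMeasurable]
        apply integral_congr_ae
        apply ae_of_all
        intro ω
        dsimp only
        rw [Finset.prod_range]
    _ = ∫ y, ∫ w, ∏ i, F (y i, w i) ∂(Measure.pi (fun _ : Fin n => Q))
          ∂(P.map (fun ω (i : Fin n) => Y i ω)) := by
        rw [hmap, hpi, integral_prod]
        apply Integrable.of_bound hGm.aestronglyMeasurable 1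
        exact ae_of_all _ (fun z => norm_prod_le _ _ (fun i => hn _))
    _ = ∫ y, ∏ i, (∫ w, F (y i, w) ∂Q) ∂(P.map (fun ω (i : Fin n) => Y i ω)) := by
        apply integral_congr_ae
        apply ae_of_all
        intro y
        exact integral_fintype_prod_eq_prod (fun i w => F (y i, w))
    _ = _ := by
        rw [integral_map hYm.aemeasurable]
        · apply integral_congr_ae
          apply ae_of_all
          intro ω
          dsimp only
          rw [Finset.prod_range]
        · apply Measurable.aestronglyMeasurable
          apply Finset.measurable_prod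
          intro i _
          have h1 : StronglyMeasurable (fun x => ∫ w, F (x, w) ∂Q) :=
            hF.stronglyMeasurable.integral_prod_right'
          exact h1.measurable.comp (measurable_pi_apply i)

lemma marks_functional (h : Marked P Λ Q Y M) {B : Set S} (hB : MeasurableSet B)
    (hBfin : Λ B ≠ ∞) {F : S × W → ℂ} (hF : Measurable F) (hn : ∀ z, ‖F z‖ ≤ 1)
    (h1 : ∀ z, z.1 ∉ B → F z = 1) :
    ∫ ω, ∏ᶠ i, F (Y i ω, M i ω) ∂P =
      Complex.exp (∫ z, (F z - 1) ∂((Λ.restrict B).prod Q)) := by
  have hBf : IsFiniteMeasure (Λ.restrict B) := ⟨by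
    rw [Measure.restrict_apply_univ]; exact lt_top_iff_ne_top.mpr hBfin⟩
  set g : S → ℂ := fun x => ∫ w, F (x, w) ∂Q with hg
  have hgm : Measurable g := (hF.stronglyMeasurable.integral_prod_right').measurable
  have hgn : ∀ x, ‖g x‖ ≤ 1 := by
    intro x
    calc ‖g x‖ ≤ ∫ w, ‖F (x, w)‖ ∂Q := norm_integral_le_integral_norm _
      _ ≤ ∫ w, (1 : ℝ) ∂Q := by
          apply integral_mono_of_nonneg
          · exact ae_of_all _ (fun w => norm_nonneg _)
          · exact integrable_const _
          · exact ae_of_all _ (fun w => hn _)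
      _ = 1 := by simp
  have hg1 : ∀ x ∉ B, g x = 1 := by
    intro x hx
    rw [hg]
    dsimp only
    have : ∀ w, F (x, w) = 1 := fun w => h1 (x, w) hx
    simp [this]
  have hfin := fin_ae h.hY h.hP hB hBfin
  have hZ : ∀ i, Measurable (fun ω => (Y i ω, M i ω)) := fun i => (h.hY i).prodMk (h.hM i)
  have hfinZ : ∀ᵐ ω ∂P, (pts (fun i ω => (Y i ω, M i ω)) (B ×ˢ univ) ω).Finite := by
    filter_upwards [hfin] with ω hω
    refine hω.subset ?_
    intro i hi
    exact hi.1
  have hlim1 := tendsto_integral_prod (P := P) hZ hfinZ hF hn (fun z hz => h1 z (fun hz' => hz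
    ⟨hz', mem_univ _⟩))
  have hlim2 := tendsto_integral_prod (P := P) h.hY hfin hgm hgn hg1
  have heq : ∫ ω, ∏ᶠ i, F (Y i ω, M i ω) ∂P = ∫ ω, ∏ᶠ i, g (Y i ω) ∂P := by
    refine tendsto_nhds_unique hlim1 (hlim2.congr (fun n => ?_))
    exact (marks_step h hF hn n).symm
  rw [heq, functional h.hY h.hP hB hBfin hgm hgn hg1]
  congr 1
  rw [integral_prod]
  · apply setIntegral_congr_fun hB
    intro x _
    dsimp only
    rw [integral_sub]
    · simp [hg]
    · apply Integrable.of_bound (hF.comp measurable_prodMk_left).aestronglyMeasurable 1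
      exact ae_of_all _ (fun w => hn _)
    · exact integrable_const _
  · apply Integrable.of_bound (hF.sub measurable_const).aestronglyMeasurable 2
    apply ae_of_all
    intro z
    calc ‖F z - 1‖ ≤ ‖F z‖ + ‖(1 : ℂ)‖ := norm_sub_le _ _
      _ ≤ 1 + 1 := by
          gcongr
          · exact hn z
          · simp
      _ = 2 := by norm_num

/-- **Marking theorem**: the counts of the marked process in finitely many disjoint sets (over a
set of finite measure) are independent Poisson variables. -/
theorem marking {κ : Type*} [Fintype κ] (h : Marked P Λ Q Y M) {B : Set S}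
    (hB : MeasurableSet B) (hBfin : Λ B ≠ ∞) (A : κ → Set (S × W))
    (hA : ∀ c, MeasurableSet (A c)) (hd : ∀ c d, c ≠ d → Disjoint (A c) (A d))
    (hAB : ∀ c, ∀ z ∈ A c, z.1 ∈ B) :
    P.map (fun ω c => cnt (fun i ω => (Y i ω, M i ω)) (A c) ω) =
      Measure.pi (fun c => poissonMeasure ((Λ.prod Q) (A c)).toNNReal) := by
  classical
  have hBf : IsFiniteMeasure (Λ.restrict B) := ⟨by
    rw [Measure.restrict_apply_univ]; exact lt_top_iff_ne_top.mpr hBfin⟩
  set Z : ℕ → Ω → S × W := fun i ω => (Y i ω, M i ω) with hZdef
  have hZ : ∀ i, Measurable (Z i) := fun i => (h.hY i).prodMk (h.hM i)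
  have hfin := fin_ae h.hY h.hP hB hBfin
  have hm : Measurable (fun ω (c : κ) => cnt Z (A c) ω) :=
    measurable_pi_lambda _ (fun c => measurable_cnt hZ (hA c))
  have hcast : Measurable (fun (n : κ → ℕ) (c : κ) => ((n c : ℕ) : ℝ)) :=
    measurable_pi_lambda _ (fun c => measurable_from_nat.comp (measurable_pi_apply c))
  -- equality after casting to the reals
  have key : (P.map (fun ω c => cnt Z (A c) ω)).map (fun n c => ((n c : ℕ) : ℝ)) =
      (Measure.pi (fun c => poissonMeasure ((Λ.prod Q) (A c)).toNNReal)).map
        (fun n c => ((n c : ℕ) : ℝ)) := by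
    rw [Measure.pi_map_pi (f := fun _ (n : ℕ) => (n : ℝ))
      (fun c => (measurable_from_nat (f := fun n : ℕ => (n : ℝ))).aemeasurable)]
    have : IsProbabilityMeasure ((P.map (fun ω c => cnt Z (A c) ω)).map
        (fun n c => ((n c : ℕ) : ℝ))) := by
      have h1 : IsProbabilityMeasure (P.map (fun ω c => cnt Z (A c) ω)) :=
        Measure.isProbabilityMeasure_map hm.aemeasurable
      exact Measure.isProbabilityMeasure_map hcast.aemeasurable
    rw [← charFun_eq_pi_iff]
    intro t
    -- right-hand side
    have hR : ∀ c, charFun ((poissonMeasure ((Λ.prod Q) (A c)).toNNReal).map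
        (fun n : ℕ => (n : ℝ))) (t c) =
        Complex.exp ((((Λ.prod Q) (A c)).toReal : ℂ) * (Complex.exp (t c * Complex.I) - 1)) := by
      intro c
      exact charFun_map_cast_poissonMeasure _ _
    simp_rw [hR]
    rw [← Complex.exp_sum]
    -- left-hand side
    set F : S × W → ℂ := fun z =>
      ∏ c, (if z ∈ A c then Complex.exp (t c * Complex.I) else 1) with hFdef
    have hFm : Measurable F := by
      apply Finset.measurable_prod
      intro c _
      exact Measurable.ite (hA c) measurable_const measurable_const
    have hFn : ∀ z, ‖F z‖ ≤ 1 := by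
      intro z
      apply norm_prod_le
      intro c
      split_ifs
      · rw [Complex.norm_exp_ofReal_mul_I]
      · simp
    have hF1 : ∀ z, z.1 ∉ B → F z = 1 := by
      intro z hz
      apply Finset.prod_eq_one
      intro c _
      rw [if_neg]
      intro hzc
      exact hz (hAB c z hzc)
    have hfun := marks_functional h hB hBfin hFm hFn hF1
    have hL : charFun (((P.map (fun ω c => cnt Z (A c) ω)).map
        (fun n c => ((n c : ℕ) : ℝ))).map (WithLp.toLp 2)) t = ∫ ω, ∏ᶠ i, F (Z i ω) ∂P := by
      rw [charFun_apply, integral_map (by fun_prop) (by fun_prop),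
        integral_map hcast.aemeasurable (by fun_prop),
        integral_map hm.aemeasurable AEStronglyMeasurable.of_discrete]
      apply integral_congr_ae
      filter_upwards [hfin] with ω hω
      have hωZ : (pts Z (B ×ˢ univ) ω).Finite := by
        refine hω.subset ?_
        intro i hi
        exact hi.1
      rw [finprod_eq hωZ (fun z hz => hF1 z (fun hz' => hz ⟨hz', mem_univ _⟩))]
      have h4 : ∀ c : κ, cnt Z (A c) ω =
          (hωZ.toFinset.filter (fun i => Z i ω ∈ A c)).card := by
        intro c
        unfold cnt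
        rw [← Set.ncard_coe_finset]
        congr 1
        ext i
        simp only [pts, mem_ofPred_eq, Finset.coe_filter, Finite.mem_toFinset]
        constructor
        · intro h5
          exact ⟨⟨hAB c _ h5, mem_univ _⟩, h5⟩
        · rintro ⟨_, h5⟩; exact h5
      have h5 : ∏ i ∈ hωZ.toFinset, F (Z i ω) =
          ∏ c, Complex.exp (t c * Complex.I) ^ cnt Z (A c) ω := by
        rw [hFdef]
        dsimp only
        rw [Finset.prod_comm]
        apply Finset.prod_congr rfl
        intro c _
        rw [h4 c, Finset.prod_ite, Finset.prod_const, Finset.prod_const_one, mul_one]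
      rw [h5]
      simp_rw [← Complex.exp_nat_mul]
      rw [← Complex.exp_sum]
      congr 1
      rw [PiLp.inner_apply]
      push_cast
      rw [Finset.sum_mul]
      apply Finset.sum_congr rfl
      intro c _
      simp only [RCLike.inner_apply, conj_trivial]
      push_cast
      ring
    rw [hL, hfun]
    congr 1
    -- the exponent
    have hG : ∀ z, F z - 1 =
        ∑ c, (A c).indicator (fun _ => (Complex.exp (t c * Complex.I) - 1 : ℂ)) z := by
      intro z
      by_cases hz : ∃ c, z ∈ A c
      · obtain ⟨c, hc⟩ := hz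
        have hother : ∀ d, d ≠ c → z ∉ A d := by
          intro d hdc hzd
          exact Set.disjoint_left.mp (hd d c hdc) hzd hc
        rw [Finset.sum_eq_single c]
        · rw [Set.indicator_of_mem hc, hFdef]
          dsimp only
          rw [Finset.prod_eq_single c]
          · rw [if_pos hc]
          · intro d _ hdc
            rw [if_neg (hother d hdc)]
          · intro h7; exact absurd (Finset.mem_univ _) h7
        · intro d _ hdc
          rw [Set.indicator_of_notMem (hother d hdc)]
        · intro h7; exact absurd (Finset.mem_univ _) h7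
      · push Not at hz
        rw [Finset.sum_eq_zero (fun c _ => Set.indicator_of_notMem (hz c) _), hFdef]
        dsimp only
        rw [Finset.prod_eq_one (fun c _ => if_neg (hz c)), sub_self]
    simp_rw [hG]
    rw [integral_finsetSum]
    · apply Finset.sum_congr rfl
      intro c _
      rw [integral_indicator_const _ (hA c), Complex.real_smul]
      congr 2
      rw [measureReal_def]
      congr 1
      have h8 : (Λ.restrict B).prod Q = (Λ.prod Q).restrict (B ×ˢ univ) := by
        rw [← Measure.prod_restrict, Measure.restrict_univ]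
      rw [h8, Measure.restrict_apply (hA c), inter_eq_left.mpr]
      intro z hz
      exact ⟨hAB c z hz, mem_univ _⟩
    · intro c _
      exact (integrable_const _).indicator (hA c)
  -- remove the cast
  have hfloor : Measurable (fun (x : κ → ℝ) (c : κ) => ⌊x c⌋₊) :=
    measurable_pi_lambda _ (fun c => Nat.measurable_floor.comp (measurable_pi_apply c))
  have hid : (fun (x : κ → ℝ) (c : κ) => ⌊x c⌋₊) ∘ (fun (n : κ → ℕ) (c : κ) => ((n c : ℕ) : ℝ)) =
      id := by
    funext n c
    simp
  have h9 := congrArg (Measure.map (fun (x : κ → ℝ) (c : κ) => ⌊x c⌋₊)) key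
  rw [Measure.map_map hfloor hcast, Measure.map_map hfloor hcast, hid, Measure.map_id,
    Measure.map_id] at h9
  exact h9

end Pool.Agent.Helper40.PoolM
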